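import Pool.Agent.Work.MP_6bf1e5_an.Chaos.Gauss

/-!
Harmonic homogeneous polynomials in a block of variables and their Gaussian means.
-/

open MvPolynomial Finset

namespace Pool.Agent.Work.MP_6bf1e5_an.Chaos

noncomputable section

variable {σ : Type} [Fintype σ] [DecidableEq σ]

/-- Homogeneous of degree `k` in the variables of `S`. -/
abbrev Hom (S : Finset σ) (f : MvPolynomial σ ℝ) (k : ℕ) : Prop := IsWeightedHomogeneous (w S) f k

/-- The Laplacian in the variables of `S`. -/
def L (S : Finset σ) : MvPolynomial σ ℝ →ₗ[ℝ] MvPolynomial σ ℝ :=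
  ∑ v ∈ S, (pderiv v).toLinearMap ∘ₗ (pderiv v).toLinearMap

/-- The product of the gradients in the variables of `S`. -/
def G (S : Finset σ) (f g : MvPolynomial σ ℝ) : MvPolynomial σ ℝ :=
  ∑ v ∈ S, pderiv v f * pderiv v g

/-- The squared radius in the variables of `S`. -/
def rsq (S : Finset σ) : MvPolynomial σ ℝ := ∑ v ∈ S, X v * X v

omit [Fintype σ] [DecidableEq σ] in
theorem L_apply (S : Finset σ) (f : MvPolynomial σ ℝ) :
    L S f = ∑ v ∈ S, pderiv v (pderiv v f) := by
  simp [L, LinearMap.sum_apply]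

omit [Fintype σ] [DecidableEq σ] in
theorem L_mul (S : Finset σ) (f g : MvPolynomial σ ℝ) :
    L S (f * g) = f * L S g + g * L S f + 2 * G S f g := by
  simp only [L_apply, G, pderiv_mul, map_add, mul_sum, ← sum_add_distrib]
  exact sum_congr rfl fun v _ => by ring

theorem euler {S : Finset σ} {f : MvPolynomial σ ℝ} {k : ℕ} (hf : Hom S f k) :
    ∑ v ∈ S, X v * pderiv v f = (k : ℝ) • f := by
  have h := hf.sum_weight_X_mul_pderiv
  simp only [w, ite_smul, one_smul, zero_smul] at h
  rw [← sum_filter] at h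
  simp only [subset_univ, filter_mem_eq_inter, inter_eq_right.2] at h
  rw [h, Nat.cast_smul_eq_nsmul]

theorem pd_zero {S : Finset σ} {f : MvPolynomial σ ℝ} (hf : Hom S f 0) {v : σ} (hv : v ∈ S) :
    pderiv v f = 0 := by
  rw [f.as_sum, map_sum]
  refine sum_eq_zero fun m hm => ?_
  have h := hf (mem_support_iff.1 hm)
  rw [weight_w, sum_eq_zero_iff] at h
  rw [pderiv_monomial, h v hv, Nat.cast_zero, mul_zero, monomial_zero]

omit [Fintype σ] in
theorem pd_hom {S : Finset σ} {f : MvPolynomial σ ℝ} {k : ℕ} (hf : Hom S f (k + 1)) {v : σ}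
    (hv : v ∈ S) : Hom S (pderiv v f) k :=
  hf.pderiv (by simp [w, hv])

omit [Fintype σ] in
theorem pd_comm (u v : σ) (f : MvPolynomial σ ℝ) :
    pderiv u (pderiv v f) = pderiv v (pderiv u f) := by
  induction f using MvPolynomial.induction_on with
  | C a => simp
  | add p q hp hq => simp only [map_add, hp, hq]
  | mul_X p i hp =>
    have h : ∀ a b : σ, pderiv a (pderiv b (X i : MvPolynomial σ ℝ)) = 0 := fun a b => by
      by_cases e : i = b
      · subst e
        simp
      · rw [pderiv_X_of_ne e, map_zero]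
    simp only [pderiv_mul, map_add, hp, h]
    ring

theorem green {S : Finset σ} {h : MvPolynomial σ ℝ} {k : ℕ} (hh : Hom S h k) (hL : L S h = 0)
    (φ : MvPolynomial σ ℝ) : (k : ℝ) * E (φ * h) = ∑ v ∈ S, E (pderiv v φ * pderiv v h) := by
  have e1 : (k : ℝ) * E (φ * h) = E (∑ v ∈ S, X v * (φ * pderiv v h)) := by
    rw [← smul_eq_mul, ← map_smul, ← mul_smul_comm, ← euler hh, mul_sum]
    congr 1
    exact sum_congr rfl fun v _ => by ring
  have e2 : ∑ v ∈ S, E (φ * pderiv v (pderiv v h)) = 0 := by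
    rw [← map_sum, ← mul_sum, ← L_apply, hL, mul_zero, map_zero]
  rw [e1, map_sum]
  simp only [stein, pderiv_mul, map_add]
  rw [sum_add_distrib, e2, add_zero]

/-- A harmonic homogeneous polynomial is orthogonal to the polynomials of lower degree. -/
theorem orth {S : Finset σ} : ∀ (l k : ℕ) (h φ : MvPolynomial σ ℝ), l < k → Hom S h k →
    L S h = 0 → Hom S φ l → E (φ * h) = 0 := by
  intro l
  induction l with
  | zero =>
    intro k h φ hk hh hL hφ
    have e := green hh hL φ
    rw [sum_eq_zero fun v hv => by rw [pd_zero hφ hv, zero_mul, map_zero]] at e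
    exact (mul_eq_zero.1 e).resolve_left (Nat.cast_ne_zero.2 hk.ne')
  | succ l ih =>
    intro k h φ hk hh hL hφ
    obtain ⟨k, rfl⟩ : ∃ j, k = j + 1 := ⟨k - 1, by omega⟩
    have e := green hh hL φ
    rw [sum_eq_zero fun v hv => ih k _ _ (by omega) (pd_hom hh hv) ?_ (pd_hom hφ hv)] at e
    · exact (mul_eq_zero.1 e).resolve_left (Nat.cast_ne_zero.2 (by omega))
    · have e2 : L S (pderiv v h) = pderiv v (L S h) := by
        simp only [L_apply, map_sum]
        exact sum_congr rfl fun u _ => by rw [pd_comm u v, pd_comm u v]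
      rw [e2, hL, map_zero]

theorem radial {S : Finset σ} {f : MvPolynomial σ ℝ} {k : ℕ} (hf : Hom S f k) :
    E (rsq S * f) = ((S.card + k : ℕ) : ℝ) * E f := by
  have e1 : E (rsq S * f) = ∑ v ∈ S, (E f + E (X v * pderiv v f)) := by
    rw [rsq, sum_mul, map_sum]
    exact sum_congr rfl fun v _ => by
      rw [mul_assoc, stein, pderiv_mul, pderiv_X_self, one_mul, map_add]
  rw [e1, sum_add_distrib, ← map_sum E (fun v => X v * pderiv v f), euler hf, map_smul, sum_const]
  simp only [nsmul_eq_mul, smul_eq_mul]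
  push_cast
  ring

omit [Fintype σ] in
theorem rsq_hom (S : Finset σ) : Hom S (rsq S) 2 :=
  IsWeightedHomogeneous.sum _ _ _ fun v hv => by
    have h := isWeightedHomogeneous_X ℝ (w S) v
    rw [show w S v = 1 by simp [w, hv]] at h
    exact h.mul h

omit [Fintype σ] in
theorem rsq_hom0 {S T : Finset σ} (hd : Disjoint S T) : Hom T (rsq S) 0 :=
  IsWeightedHomogeneous.sum _ _ _ fun v hv => by
    have h := isWeightedHomogeneous_X ℝ (w T) v
    rw [show w T v = 0 by simp [w, disjoint_left.1 hd hv]] at h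
    exact h.mul h

/-- The product `N (N + 2) ⋯` with `s` factors. -/
def cc (N s : ℕ) : ℝ := ∏ t ∈ range s, ((N + 2 * t : ℕ) : ℝ)

theorem cc_pos {N : ℕ} (hN : 0 < N) (s : ℕ) : 0 < cc N s :=
  prod_pos fun t _ => Nat.cast_pos.2 (by omega)

theorem radial_pow {S : Finset σ} {f : MvPolynomial σ ℝ} {k : ℕ} (hf : Hom S f k) (s : ℕ) :
    E (rsq S ^ s * f) = cc (S.card + k) s * E f := by
  induction s with
  | zero => simp [cc]
  | succ s ih =>
    have h := ((rsq_hom S).pow s).mul hf
    rw [pow_succ', mul_assoc, radial h, ih, cc, cc, prod_range_succ]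
    simp only [smul_eq_mul]
    push_cast
    ring

theorem radial_prod {β : Type} (S : β → Finset σ) (s k : β → ℕ) (f : MvPolynomial σ ℝ)
    (B : Finset β) (hd : ∀ b ∈ B, ∀ b' ∈ B, b ≠ b' → Disjoint (S b) (S b'))
    (hf : ∀ b ∈ B, Hom (S b) f (k b)) :
    E ((∏ b ∈ B, rsq (S b) ^ s b) * f) = (∏ b ∈ B, cc ((S b).card + k b) (s b)) * E f := by
  classical
  induction B using Finset.induction_on with
  | empty => simp
  | insert a B ha ih =>
    have h0 : Hom (S a) (∏ b ∈ B, rsq (S b) ^ s b) (∑ _b ∈ B, 0) :=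
      IsWeightedHomogeneous.prod B _ _ fun b hb => by
        have := (rsq_hom0 (hd b (mem_insert_of_mem hb) a (mem_insert_self a B)
          fun e => ha (e ▸ hb))).pow (s b)
        simpa using this
    have h1 := h0.mul (hf a (mem_insert_self a B))
    simp only [sum_const_zero, zero_add] at h1
    rw [prod_insert ha, prod_insert ha, mul_assoc, radial_pow h1,
      ih (fun b hb b' hb' => hd b (mem_insert_of_mem hb) b' (mem_insert_of_mem hb'))
        fun b hb => hf b (mem_insert_of_mem hb), mul_assoc]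

end

end Pool.Agent.Work.MP_6bf1e5_an.Chaos
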