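import Mathlib

/-!
The polynomials of total degree at most `p` in `n` variables have an orthonormal basis for the
standard Gaussian measure.
-/

open MeasureTheory ProbabilityTheory MvPolynomial

namespace Pool.Agent.Work.MP_6bf1e5_an.Chaos

theorem bas_pow (k : ℕ) : Integrable (fun x : ℝ => x ^ k) (gaussianReal 0 1) := by
  have h : Integrable (fun x : ℝ => ‖id x‖ ^ k) (gaussianReal 0 1) :=
    (memLp_id_gaussianReal' (μ := 0) (v := 1) k (by simp)).integrable_norm_pow'
  refine h.mono' (by fun_prop) (Filter.Eventually.of_forall fun x => ?_)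
  simp

theorem bas_int {σ : Type} [Fintype σ] (f : MvPolynomial σ ℝ) :
    Integrable (fun x : σ → ℝ => eval x f) (Measure.pi fun _ => gaussianReal 0 1) := by
  induction f using MvPolynomial.induction_on' with
  | monomial m a =>
    have e : (fun x : σ → ℝ => eval x (monomial m a)) = fun x => a * ∏ i, x i ^ m i := by
      funext x
      rw [eval_monomial, Finsupp.prod_fintype _ _ fun _ => pow_zero _]
    rw [e]
    exact (Integrable.fintype_prod (f := fun i (y : ℝ) => y ^ m i) fun i => bas_pow _).const_mul a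
  | add f g hf hg =>
    simp only [map_add]
    exact hf.add hg

theorem bas_int2 {σ : Type} [Fintype σ] (f g : MvPolynomial σ ℝ) :
    Integrable (fun x : σ → ℝ => eval x f * eval x g) (Measure.pi fun _ => gaussianReal 0 1) := by
  simpa only [map_mul] using bas_int (f * g)

theorem bas_pos {σ : Type} [Fintype σ] {f : MvPolynomial σ ℝ} (hf : f ≠ 0) :
    0 < ∫ x : σ → ℝ, eval x f * eval x f ∂(Measure.pi fun _ => gaussianReal 0 1) := by
  have : Measure.IsOpenPosMeasure (gaussianReal 0 1) :=
    (gaussianReal_absolutelyContinuous' 0 one_ne_zero).isOpenPosMeasure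
  obtain ⟨x, hx⟩ : ∃ x : σ → ℝ, eval x f ≠ 0 := by
    by_contra h
    push Not at h
    exact hf (MvPolynomial.funext fun x => by rw [h x, map_zero])
  exact integral_pos_of_integrable_nonneg_nonzero (x := x)
    (f.continuous_eval.mul f.continuous_eval) (bas_int2 f f) (fun y => mul_self_nonneg _)
    (mul_ne_zero hx hx)

theorem exists_basis (n p : ℕ) : ∃ (N : ℕ) (ψ : Fin N → MvPolynomial (Fin n) ℝ),
    (∀ a, (ψ a).totalDegree ≤ p) ∧
    (∀ a b, ∫ x : Fin n → ℝ, eval x (ψ a) * eval x (ψ b) ∂(Measure.pi fun _ => gaussianReal 0 1)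
      = if a = b then 1 else 0) ∧
    ∀ f : MvPolynomial (Fin n) ℝ, f.totalDegree ≤ p → f ∈ Submodule.span ℝ (Set.range ψ) := by
  let V := restrictTotalDegree (Fin n) ℝ p
  let B : LinearMap.BilinForm ℝ V := LinearMap.mk₂ ℝ
    (fun f g => ∫ x : Fin n → ℝ, eval x f.1 * eval x g.1 ∂(Measure.pi fun _ => gaussianReal 0 1))
    (fun f g h => by
      simp only [Submodule.coe_add, map_add, add_mul]
      exact integral_add (bas_int2 _ _) (bas_int2 _ _))
    (fun r f g => by
      simp only [Submodule.coe_smul, smul_eval, smul_eq_mul, mul_assoc]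
      exact integral_const_mul _ _)
    (fun f g h => by
      simp only [Submodule.coe_add, map_add, mul_add]
      exact integral_add (bas_int2 _ _) (bas_int2 _ _))
    (fun r f g => by
      simp only [Submodule.coe_smul, smul_eval, smul_eq_mul, mul_left_comm _ r]
      exact integral_const_mul _ _)
  have hB : ∀ f g : V, B f g =
      ∫ x : Fin n → ℝ, eval x f.1 * eval x g.1 ∂(Measure.pi fun _ => gaussianReal 0 1) :=
    fun f g => rfl
  have hs : LinearMap.IsSymm B := ⟨fun f g => by simp only [hB, mul_comm, RingHom.id_apply]⟩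
  have : Invertible (2 : ℝ) := invertibleOfNonzero two_ne_zero
  obtain ⟨v, hv⟩ := LinearMap.BilinForm.exists_orthogonal_basis hs
  have hp : ∀ a, 0 < B (v a) (v a) := fun a =>
    bas_pos fun h => v.ne_zero a (Subtype.ext h)
  have hq : ∀ a, √(B (v a) (v a)) ≠ 0 := fun a => (Real.sqrt_pos.2 (hp a)).ne'
  refine ⟨_, fun a => ((√(B (v a) (v a)))⁻¹ • v a : V), fun a => ?_, fun a b => ?_,
    fun f hf => ?_⟩
  · exact (mem_restrictTotalDegree _ _ _).1 ((√(B (v a) (v a)))⁻¹ • v a : V).2
  · rw [← hB]
    simp only [map_smul, LinearMap.smul_apply, smul_eq_mul]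
    split_ifs with hab
    · subst hab
      have := Real.mul_self_sqrt (hp a).le
      have h2 := hq a
      field_simp
      linarith
    · rw [hv hab, mul_zero, mul_zero]
  · have hf' : f ∈ V := (mem_restrictTotalDegree _ _ _).2 hf
    have e := congrArg Subtype.val (v.sum_repr ⟨f, hf'⟩)
    simp only [Submodule.coe_sum, Submodule.coe_smul] at e
    rw [← e]
    refine Submodule.sum_mem _ fun a _ => Submodule.smul_mem _ _ ?_
    have e2 : (v a : MvPolynomial (Fin n) ℝ) =
        √(B (v a) (v a)) • (((√(B (v a) (v a)))⁻¹ • v a : V) : MvPolynomial (Fin n) ℝ) := by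
      rw [Submodule.coe_smul, smul_smul, mul_inv_cancel₀ (hq a), one_smul]
    rw [e2]
    exact Submodule.smul_mem _ _ (Submodule.subset_span ⟨a, rfl⟩)

end Pool.Agent.Work.MP_6bf1e5_an.Chaos
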