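import Pool.Agent.Work.MP_6bf1e5_an.Chaos.Quat
import Pool.Agent.Work.MP_6bf1e5_an.Mat.Final

/-!
Transfer of the self-similar profile for symmetric matrices to the polynomial chaos system.
-/

open scoped ContDiff ENNReal
open MvPolynomial Finset Matrix Pool.Agent.Work.MP_6bf1e5_an.Ens Pool.Agent.Work.MP_6bf1e5_an.Mat

namespace Pool.Agent.Work.MP_6bf1e5_an.Chaos

noncomputable section

/-- A linear combination of vector fields. -/
def comb {ι κ : Type} [Fintype ι] (M : κ → ι → ℝ) (W : ι → R3 → R3) (a : κ) (y : R3) : R3 :=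
  ∑ e, M a e • W e y

theorem comb_apply {ι κ : Type} [Fintype ι] (M : κ → ι → ℝ) (W : ι → R3 → R3) (a : κ) (y : R3)
    (i : Fin 3) : comb M W a y i = ∑ e, M a e * W e y i := by
  simp [comb]

theorem pd_comb {ι : Type} [Fintype ι] (m : ι → ℝ) {f : ι → R3 → ℝ} (hf : ∀ e, ContDiff ℝ ∞ (f e))
    (j : Fin 3) : pd j (fun y => ∑ e, m e * f e y) = fun y => ∑ e, m e * pd j (f e) y := by
  funext y
  rw [pd_sum _ fun e _ => ((hf e).differentiable (by simp) y).const_mul (m e)]
  simp only [pd_const_mul]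

theorem transfer {ι κ : Type} [Fintype ι] [Fintype κ] {ν : ℝ} {c : ι → ι → ι → ℝ}
    {c' : κ → κ → κ → ℝ} {W : ι → R3 → R3} (h : PhysProfile ν c W) (M : κ → ι → ℝ)
    (hM : ∀ a y i j, ∑ b, ∑ d, c' a b d *
      ((∑ e, M b e * W e y j) * ∑ e, M d e * pd j (fun z => W e z i) y) =
      ∑ e, M a e * ∑ b, ∑ d, c e b d * (W b y j * pd j (fun z => W d z i) y))
    (hne : comb M W ≠ 0) : PhysProfile ν c' (comb M W) := by
  have hs : ∀ e i, ContDiff ℝ ∞ fun y => W e y i := fun e i => (h.sy e i).smooth ()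
  have swap : ∀ {α : Type} [Fintype α] (k : α → α → ℝ) (t : α → α → Fin 3 → ℝ),
      ∑ b, ∑ d, k b d * ∑ j, t b d j = ∑ j, ∑ b, ∑ d, k b d * t b d j := by
    intro α _ k t
    simp only [mul_sum]
    rw [sum_congr rfl fun b _ => sum_comm, sum_comm]
  refine ⟨fun a i => ?_, fun a y => ?_, fun a => ?_, hne⟩
  · simp only [comb_apply]
    exact SyF.sum univ fun e _ => (h.sy e i).const_mul (M a e)
  · simp only [comb_apply, pd_comb (M a) (hs · _)]
    rw [sum_comm]
    simp only [← mul_sum, h.div, mul_zero, sum_const_zero]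
  · choose P hP hE using h.eqn
    refine ⟨fun y => ∑ e, M a e * P e y, ContDiff.sum fun e _ => contDiff_const.mul (hP e),
      fun y i => ?_⟩
    have e0 : ∑ e, M a e * ((W e y i + ∑ j, y j * pd j (fun z => W e z i) y) / 2
        - ν * lap (fun z => W e z i) y
        + ∑ b, ∑ d, c e b d * ∑ j, W b y j * pd j (fun z => W d z i) y + pd i (P e) y) = 0 := by
      simp only [hE, mul_zero, sum_const_zero]
    have e1 : ∑ b, ∑ d, c' a b d * ∑ j, (∑ e, M b e * W e y j) *
        ∑ e, M d e * pd j (fun z => W e z i) y =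
        ∑ e, M a e * ∑ b, ∑ d, c e b d * ∑ j, W b y j * pd j (fun z => W d z i) y := by
      rw [swap]
      simp only [hM]
      rw [sum_comm]
      refine sum_congr rfl fun e _ => ?_
      rw [swap, mul_sum]
    have e2 : ∑ j, y j * ∑ e, M a e * pd j (fun z => W e z i) y =
        ∑ e, M a e * ∑ j, y j * pd j (fun z => W e z i) y := by
      simp only [mul_sum]
      rw [sum_comm]
      exact sum_congr rfl fun e _ => sum_congr rfl fun j _ => by ring
    have e3 : lap (fun z => ∑ e, M a e * W e z i) y = ∑ e, M a e * lap (fun z => W e z i) y := by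
      simp only [lap, pd_comb (M a) (hs · _), pd_comb (M a) fun e => contDiff_pd (hs e i) _,
        mul_sum]
      rw [sum_comm]
    simp only [comb_apply, pd_comb _ (hs · _), pd_comb (M a) hP]
    rw [e1, e2, e3, ← e0, ← sum_add_distrib, sum_div, mul_sum, ← sum_sub_distrib,
      ← sum_add_distrib, ← sum_add_distrib]
    exact sum_congr rfl fun e _ => by ring

theorem WJ_symm (g : ℝ → ℝ) (p r : Fin 3) : WJ g (r, p) = WJ g (p, r) := by
  unfold WJ
  rw [physj_Am]

theorem WJ_trace (g : ℝ → ℝ) (y : R3) (i : Fin 3) : ∑ p, WJ g (p, p) y i = 0 := by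
  simp only [WJ, FF, qf, Fin.sum_univ_three]
  fin_cases i <;> simp [Am] <;> ring

section basis

variable {σ ι : Type} [Fintype σ] [Fintype ι] [DecidableEq ι] {ψ : ι → MvPolynomial σ ℝ}

theorem expand (horth : ∀ a b, gmean (ψ a * ψ b) = if a = b then 1 else 0)
    {f : MvPolynomial σ ℝ} (hf : f ∈ Submodule.span ℝ (Set.range ψ)) :
    f = ∑ a, E (ψ a * f) • ψ a := by
  obtain ⟨k, rfl⟩ := (Submodule.mem_span_range_iff_exists_fun ℝ).1 hf
  refine sum_congr rfl fun a _ => ?_
  simp only [mul_sum, mul_smul_comm, map_sum, map_smul]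
  simp [E_apply, horth]

theorem contract (horth : ∀ a b, gmean (ψ a * ψ b) = if a = b then 1 else 0)
    {f g : MvPolynomial σ ℝ} (hf : f ∈ Submodule.span ℝ (Set.range ψ))
    (hg : g ∈ Submodule.span ℝ (Set.range ψ)) (a : ι) :
    ∑ b, ∑ d, gmean (ψ a * ψ b * ψ d) * (E (ψ b * f) * E (ψ d * g)) = E (ψ a * (f * g)) := by
  conv_rhs => rw [expand horth hf, expand horth hg]
  rw [sum_mul_sum]
  simp only [mul_sum, mul_smul_comm, smul_mul_assoc, map_sum, map_smul, smul_eq_mul, E_apply,
    mul_assoc]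
  exact sum_congr rfl fun b _ => sum_congr rfl fun d _ => by ring

end basis

theorem main {p n : ℕ} (hp : 2 ≤ p) (hn : 2 * (p / 2) < n) {ι : Type} [Fintype ι] [DecidableEq ι]
    {ψ : ι → MvPolynomial (Fin n) ℝ} (hdeg : ∀ a, (ψ a).totalDegree ≤ p)
    (hspan : ∀ f : MvPolynomial (Fin n) ℝ, f.totalDegree ≤ p → f ∈ Submodule.span ℝ (Set.range ψ))
    (horth : ∀ a b, gmean (ψ a * ψ b) = if a = b then 1 else 0) {ν : ℝ} (hν : 0 < ν) :
    CBlowup ν fun a b d => gmean (ψ a * ψ b * ψ d) := by
  obtain ⟨Q, κ, Z, hκ, hQ, hinj, hkey⟩ := exists_forms hp hn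
  obtain ⟨g, hg⟩ := exists_ode hν
  have hW := hg.phys3
  have hs : ∀ e i, ContDiff ℝ ∞ fun y => WJ g e y i := fun e i => (hW.sy e i).smooth ()
  let T : ι → M3 →ₗ[ℝ] ℝ := fun a => E ∘ₗ LinearMap.mulLeft ℝ (ψ a) ∘ₗ Q
  have hT : ∀ a X, T a X = E (ψ a * Q X) := fun a X => rfl
  let M : ι → Fin 3 × Fin 3 → ℝ := fun a e => T a (Matrix.single e.1 e.2 1) / κ
    + if e.1 = e.2 then E (ψ a * Z) / κ ^ 2 - T a 1 / (3 * κ) else 0
  have hM : ∀ a (X : M3), ∑ e, M a e * X e.1 e.2 =
      T a X / κ + X.trace * (E (ψ a * Z) / κ ^ 2 - T a 1 / (3 * κ)) := by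
    intro a X
    have e1 : T a X = ∑ e : Fin 3 × Fin 3, T a (Matrix.single e.1 e.2 1) * X e.1 e.2 := by
      conv_lhs => rw [Matrix.matrix_eq_sum_single X]
      rw [Fintype.sum_prod_type, map_sum]
      refine sum_congr rfl fun r _ => ?_
      rw [map_sum]
      refine sum_congr rfl fun s _ => ?_
      rw [mul_comm, ← smul_eq_mul, ← map_smul, Matrix.smul_single, smul_eq_mul, mul_one]
    simp only [M, add_mul, sum_add_distrib]
    congr 1
    · rw [e1, sum_div]
      exact sum_congr rfl fun e _ => by ring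
    · simp only [Fintype.sum_prod_type, ite_mul, zero_mul, sum_ite_eq, mem_univ, if_true, trace,
        diag_apply, sum_mul]
      exact sum_congr rfl fun r _ => mul_comm _ _
  have hXs : ∀ y j, Matrix.IsSymm (Matrix.of fun r s => WJ g (r, s) y j) := fun y j =>
    Matrix.IsSymm.ext fun r s => by simp only [Matrix.of_apply, WJ_symm g r s]
  have hXt : ∀ y j, Matrix.trace (Matrix.of fun r s => WJ g (r, s) y j) = 0 := fun y j =>
    WJ_trace g y j
  have hprof : PhysProfile ν (fun a b d => gmean (ψ a * ψ b * ψ d)) (comb M (WJ g)) := by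
    refine transfer hW M (fun a y i j => ?_) fun h0 => hW.ne ?_
    · set X : M3 := Matrix.of fun r s => WJ g (r, s) y j with hX
      set Y : M3 := Matrix.of fun r s => pd j (fun z => WJ g (r, s) z i) y with hY
      have sX : X.IsSymm := hXs y j
      have tX : X.trace = 0 := hXt y j
      have sY : Y.IsSymm := Matrix.IsSymm.ext fun r s => by
        simp only [hY, Matrix.of_apply, WJ_symm g r s]
      have tY : Y.trace = 0 := by
        have e := pd_sum univ (f := fun r z => WJ g (r, r) z i) (x := y)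
          (fun r _ => (hs (r, r) i).differentiable (by simp) y) j
        simp only [WJ_trace, pd_const] at e
        exact e.symm
      have e1 : ∀ b, ∑ e, M b e * WJ g e y j = E (ψ b * Q X) / κ := fun b => by
        have := hM b X
        rw [tX, zero_mul, add_zero] at this
        exact this
      have e2 : ∀ b, ∑ e, M b e * pd j (fun z => WJ g e z i) y = E (ψ b * Q Y) / κ := fun b => by
        have := hM b Y
        rw [tY, zero_mul, add_zero] at this
        exact this
      have e3 : ∀ e : Fin 3 × Fin 3, ∑ b, ∑ d, cJ 3 e b d *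
          (WJ g b y j * pd j (fun z => WJ g d z i) y) =
          ((1 / 2 : ℝ) • (X * Y + Y * X)) e.1 e.2 := fun e => by
        rw [Matrix.smul_apply, smul_eq_mul, one_div_mul_eq_div]
        exact cJ_contract sX sY e
      have e4 := contract horth (hspan _ (hQ X)) (hspan _ (hQ Y)) a
      have e5 := hkey (ψ a) (hdeg a) X Y sX sY tX tY
      have e6 : T a (jp X Y) = T a ((1 / 2 : ℝ) • (X * Y + Y * X)) - (X * Y).trace / 3 * T a 1 := by
        rw [jp, map_sub, map_smul (T a) ((X * Y).trace / 3), smul_eq_mul]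
      have e7 : ((1 / 2 : ℝ) • (X * Y + Y * X)).trace = (X * Y).trace := by
        rw [trace_smul, trace_add, trace_mul_comm Y X, smul_eq_mul]
        ring
      have e8 : ∑ b, ∑ d, gmean (ψ a * ψ b * ψ d) * (E (ψ b * Q X) / κ * (E (ψ d * Q Y) / κ)) =
          E (ψ a * (Q X * Q Y)) / κ ^ 2 := by
        rw [← e4, sum_div]
        refine sum_congr rfl fun b _ => ?_
        rw [sum_div]
        exact sum_congr rfl fun d _ => by ring
      simp only [e1, e2, e3]
      rw [e8, hM, e7, e5, ← hT, e6]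
      field_simp
      ring
    · funext e y
      ext j
      have e1 : ∀ a, E (ψ a * Q (Matrix.of fun r s => WJ g (r, s) y j)) = 0 := fun a => by
        have h1 := hM a (Matrix.of fun r s => WJ g (r, s) y j)
        have h2 : comb M (WJ g) a y j = 0 := by rw [h0]; rfl
        rw [hXt, zero_mul, add_zero] at h1
        rw [comb_apply] at h2
        have h3 : T a (Matrix.of fun r s => WJ g (r, s) y j) / κ = 0 := h1.symm.trans h2
        exact (div_eq_zero_iff.1 h3).resolve_right hκ
      have e2 : Q (Matrix.of fun r s => WJ g (r, s) y j) = 0 := by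
        rw [expand horth (hspan _ (hQ _))]
        simp only [e1, zero_smul, sum_const_zero]
      exact congrFun (congrFun (hinj _ (hXs y j) (hXt y j) e2) e.1) e.2
  refine Profile.cblowup hν (fun a b d => ?_) (hprof.profile hν)
  congr 1
  ring

end

end Pool.Agent.Work.MP_6bf1e5_an.Chaos
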