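import Pool.Agent.Work.MP_6bf1e5_an.Ens.Basic
import Pool.Agent.Work.MP_6bf1e5_an.Ang.Stmt

/-!
The local energy identity and the helicity cancellation for the system with a symmetric
coupling tensor.
-/

open scoped ContDiff ENNReal
open Set MeasureTheory Pool.Agent.Work.MP_6bf1e5_an.Ens Pool.Agent.Work.MP_6bf1e5_an.Ang

namespace Pool.Agent.Work.MP_6bf1e5_an.Chaos

noncomputable section

variable {ι : Type} [Fintype ι]

theorem loc_swap13 (f : ι → ι → ι → ℝ) :
    ∑ a, ∑ b, ∑ d, f a b d = ∑ a, ∑ b, ∑ d, f d b a := by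
  calc ∑ a, ∑ b, ∑ d, f a b d = ∑ b, ∑ a, ∑ d, f a b d := Finset.sum_comm
    _ = ∑ b, ∑ d, ∑ a, f a b d := Finset.sum_congr rfl fun _ _ => Finset.sum_comm
    _ = ∑ a, ∑ b, ∑ d, f d b a := Finset.sum_comm

theorem loc_swap23 (f : ι → ι → ι → ℝ) :
    ∑ a, ∑ b, ∑ d, f a b d = ∑ a, ∑ b, ∑ d, f a d b :=
  Finset.sum_congr rfl fun _ _ => Finset.sum_comm

theorem loc_da {f : R3 → ℝ} (hf : ContDiff ℝ ∞ f) (x : R3) : DifferentiableAt ℝ f x :=
  hf.differentiable (by simp) x

/-- The derivative of a cubic expression. -/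
theorem loc_pd3 (c : ι → ι → ι → ℝ) {f : ι → R3 → ℝ} {g h : ι → Fin 3 → R3 → ℝ}
    (hf : ∀ a, ContDiff ℝ ∞ (f a)) (hg : ∀ a i, ContDiff ℝ ∞ (g a i))
    (hh : ∀ a i, ContDiff ℝ ∞ (h a i)) (j : Fin 3) (x : R3) :
    pd j (fun y => ∑ a, ∑ b, ∑ d, c a b d * (f a y * ∑ i, g b i y * h d i y)) x =
      ∑ a, ∑ b, ∑ d, c a b d * (pd j (f a) x * ∑ i, g b i x * h d i x
        + f a x * ∑ i, (pd j (g b i) x * h d i x + g b i x * pd j (h d i) x)) := by
  have h1 : ∀ b d, ContDiff ℝ ∞ fun y => ∑ i, g b i y * h d i y := fun b d =>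
    ContDiff.sum fun i _ => (hg b i).mul (hh d i)
  have h2 : ∀ a b d, ContDiff ℝ ∞ fun y => c a b d * (f a y * ∑ i, g b i y * h d i y) :=
    fun a b d => contDiff_const.mul ((hf a).mul (h1 b d))
  rw [pd_sum _ fun a _ => loc_da (ContDiff.sum fun b _ => ContDiff.sum fun d _ => h2 a b d) x]
  refine Finset.sum_congr rfl fun a _ => ?_
  rw [pd_sum _ fun b _ => loc_da (ContDiff.sum fun d _ => h2 a b d) x]
  refine Finset.sum_congr rfl fun b _ => ?_
  rw [pd_sum _ fun d _ => loc_da (h2 a b d) x]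
  refine Finset.sum_congr rfl fun d _ => ?_
  rw [pd_const_mul, pd_mul (loc_da (hf a) x) (loc_da (h1 b d) x),
    pd_sum _ fun i _ => loc_da ((hg b i).mul (hh d i)) x]
  simp only [fun i => pd_mul (loc_da (hg b i) x) (loc_da (hh d i) x) j]

theorem loc_time {I : Set ℝ} {t : ℝ} {F : ℝ → ι → Fin 3 → ℝ}
    (hF : ∀ a i, DifferentiableWithinAt ℝ (fun s => F s a i) I t) :
    derivWithin (fun s => (∑ a, ∑ i, F s a i ^ 2) / 2) I t =
      ∑ a, ∑ i, F t a i * derivWithin (fun s => F s a i) I t := by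
  by_cases hI : UniqueDiffWithinAt ℝ I t
  · have h : HasDerivWithinAt (fun s => (∑ a, ∑ i, F s a i * F s a i) / 2)
        ((∑ a, ∑ i, (derivWithin (fun s => F s a i) I t * F t a i
          + F t a i * derivWithin (fun s => F s a i) I t)) / 2) I t :=
      (HasDerivWithinAt.fun_sum fun a _ => HasDerivWithinAt.fun_sum fun i _ =>
          (hF a i).hasDerivWithinAt.fun_mul (hF a i).hasDerivWithinAt).div_const 2
    simp only [sq]
    rw [h.derivWithin hI, Finset.sum_div]
    refine Finset.sum_congr rfl fun a _ => ?_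
    rw [Finset.sum_div]
    exact Finset.sum_congr rfl fun i _ => by ring
  · simp only [derivWithin_zero_of_not_uniqueDiffWithinAt hI, mul_zero, Finset.sum_const_zero]

theorem local_energy {ν : ℝ} {c : ι → ι → ι → ℝ} {u0 : ι → R3 → R3} {I : Set ℝ}
    {u : ι → R3 → ℝ → R3} {p : ι → R3 → ℝ → ℝ} (h13 : ∀ a b d, c a b d = c d b a)
    (h23 : ∀ a b d, c a b d = c a d b) (h : CSol ν c u0 I u p) (x : R3) {t : ℝ} (ht : t ∈ I) :
    derivWithin (fun s => (∑ a, ∑ i, u a x s i ^ 2) / 2) I t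
      + ∑ j, pd j (fun y =>
          (∑ a, ∑ b, ∑ d, c a b d * (u a y t j * ∑ i, u b y t i * u d y t i)) / 2
            + ∑ a, u a y t j * p a y t) x
      = ν * ∑ j, (pd j (pd j fun y => (∑ a, ∑ i, u a y t i ^ 2) / 2) x
        - ∑ a, ∑ i, pd j (fun y => u a y t i) x ^ 2) := by
  have hU : ∀ a i, ContDiff ℝ ∞ fun y => u a y t i := fun a i => (h.ju a i).slice ht
  have hP : ∀ a, ContDiff ℝ ∞ fun y => p a y t := fun a => (h.jp a).slice ht
  have hT : ∀ a i, DifferentiableWithinAt ℝ (fun s => u a x s i) I t := fun a i =>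
    (basic_time (h.ju a i) x ht).differentiableWithinAt
  have d1 : ∀ j, (pd j fun y => (∑ a, ∑ i, u a y t i ^ 2) / 2) =
      fun y => ∑ a, ∑ i, u a y t i * pd j (fun y => u a y t i) y := fun j => by
    funext y
    have e : (fun y => (∑ a, ∑ i, u a y t i ^ 2) / 2) =
        fun y => 1 / 2 * ∑ a, ∑ i, u a y t i * u a y t i := by
      funext y
      simp only [sq]
      ring
    rw [e, pd_const_mul,
      pd_sum _ fun a _ => loc_da (ContDiff.sum fun i _ => (hU a i).mul (hU a i)) y,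
      Finset.mul_sum]
    refine Finset.sum_congr rfl fun a _ => ?_
    rw [pd_sum _ fun i _ => loc_da ((hU a i).mul (hU a i)) y, Finset.mul_sum]
    refine Finset.sum_congr rfl fun i _ => ?_
    rw [pd_mul (loc_da (hU a i) y) (loc_da (hU a i) y)]
    ring
  have d2 : ∀ j, pd j (pd j fun y => (∑ a, ∑ i, u a y t i ^ 2) / 2) x =
      ∑ a, ∑ i, pd j (fun y => u a y t i) x ^ 2
        + ∑ a, ∑ i, u a x t i * pd j (pd j fun y => u a y t i) x := fun j => by
    rw [d1, pd_sum _ fun a _ =>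
      loc_da (ContDiff.sum fun i _ => (hU a i).mul (contDiff_pd (hU a i) j)) x,
      ← Finset.sum_add_distrib]
    refine Finset.sum_congr rfl fun a _ => ?_
    rw [pd_sum _ fun i _ => loc_da ((hU a i).mul (contDiff_pd (hU a i) j)) x,
      ← Finset.sum_add_distrib]
    refine Finset.sum_congr rfl fun i _ => ?_
    rw [pd_mul (loc_da (hU a i) x) (loc_da (contDiff_pd (hU a i) j) x)]
    ring
  have d3 : ∀ j, pd j (fun y =>
      (∑ a, ∑ b, ∑ d, c a b d * (u a y t j * ∑ i, u b y t i * u d y t i)) / 2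
        + ∑ a, u a y t j * p a y t) x =
      ∑ a, pd j (fun y => u a y t j) x *
          ((∑ b, ∑ d, c a b d * ∑ i, u b x t i * u d x t i) / 2 + p a x t)
        + (∑ a, ∑ b, ∑ d, c a b d * (u b x t j * ∑ i, u a x t i * pd j (fun y => u d y t i) x)
          + ∑ a, u a x t j * pd j (fun y => p a y t) x) := fun j => by
    have e : (fun y => (∑ a, ∑ b, ∑ d, c a b d * (u a y t j * ∑ i, u b y t i * u d y t i)) / 2
        + ∑ a, u a y t j * p a y t) = fun y =>
        1 / 2 * (∑ a, ∑ b, ∑ d, c a b d * (u a y t j * ∑ i, u b y t i * u d y t i))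
          + ∑ a, u a y t j * p a y t := by
      funext y
      ring
    have s1 : ContDiff ℝ ∞ fun y =>
        ∑ a, ∑ b, ∑ d, c a b d * (u a y t j * ∑ i, u b y t i * u d y t i) :=
      ContDiff.sum fun a _ => ContDiff.sum fun b _ => ContDiff.sum fun d _ =>
        contDiff_const.mul ((hU a j).mul (ContDiff.sum fun i _ => (hU b i).mul (hU d i)))
    have s2 : ContDiff ℝ ∞ fun y => ∑ a, u a y t j * p a y t :=
      ContDiff.sum fun a _ => (hU a j).mul (hP a)
    rw [e, pd_add (loc_da (contDiff_const.mul s1) x) (loc_da s2 x), pd_const_mul,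
      loc_pd3 c (f := fun a y => u a y t j) (g := fun a i y => u a y t i)
        (h := fun a i y => u a y t i) (fun a => hU a j) hU hU,
      pd_sum _ fun a _ => loc_da ((hU a j).mul (hP a)) x]
    simp only [fun a => pd_mul (loc_da (hU a j) x) (loc_da (hP a) x) j]
    have a1 : ∑ a, ∑ b, ∑ d, c a b d * (u a x t j * ∑ i, pd j (fun y => u b y t i) x * u d x t i)
        = ∑ a, ∑ b, ∑ d, c a b d * (u a x t j * ∑ i, u b x t i * pd j (fun y => u d y t i) x) := by
      rw [loc_swap23]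
      refine Finset.sum_congr rfl fun a _ => Finset.sum_congr rfl fun b _ =>
        Finset.sum_congr rfl fun d _ => ?_
      rw [← h23]
      simp only [mul_comm]
    have a2 : ∑ a, ∑ b, ∑ d, c a b d * (u a x t j * ∑ i, u b x t i * pd j (fun y => u d y t i) x)
        = ∑ a, ∑ b, ∑ d, c a b d * (u b x t j * ∑ i, u a x t i * pd j (fun y => u d y t i) x) := by
      rw [Finset.sum_comm]
      refine Finset.sum_congr rfl fun a _ => Finset.sum_congr rfl fun b _ =>
        Finset.sum_congr rfl fun d _ => ?_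
      rw [h23 b a d, h13 b d a, ← h23]
    have a3 : ∑ a, pd j (fun y => u a y t j) x *
          ((∑ b, ∑ d, c a b d * ∑ i, u b x t i * u d x t i) / 2 + p a x t) =
        1 / 2 * ∑ a, ∑ b, ∑ d, c a b d * (pd j (fun y => u a y t j) x * ∑ i, u b x t i * u d x t i)
          + ∑ a, pd j (fun y => u a y t j) x * p a x t := by
      rw [Finset.mul_sum, ← Finset.sum_add_distrib]
      refine Finset.sum_congr rfl fun a _ => ?_
      have : ∑ b, ∑ d, c a b d * (pd j (fun y => u a y t j) x * ∑ i, u b x t i * u d x t i) =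
          pd j (fun y => u a y t j) x * ∑ b, ∑ d, c a b d * ∑ i, u b x t i * u d x t i := by
        simp only [Finset.mul_sum]
        exact Finset.sum_congr rfl fun b _ => Finset.sum_congr rfl fun d _ =>
          Finset.sum_congr rfl fun i _ => by ring
      rw [this]
      ring
    simp only [mul_add, Finset.sum_add_distrib]
    rw [a1, a2]
    simp only [mul_add, Finset.sum_add_distrib] at a3
    rw [a3]
    ring
  have d4 : ∑ j, ∑ a, pd j (fun y => u a y t j) x *
      ((∑ b, ∑ d, c a b d * ∑ i, u b x t i * u d x t i) / 2 + p a x t) = 0 := by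
    rw [Finset.sum_comm]
    refine Finset.sum_eq_zero fun a _ => ?_
    rw [← Finset.sum_mul, h.divFree a x t ht, zero_mul]
  have m : ∑ a, ∑ i, u a x t i * derivWithin (fun s => u a x s i) I t
      + ∑ j, ∑ a, ∑ b, ∑ d, c a b d * (u b x t j * ∑ i, u a x t i * pd j (fun y => u d y t i) x)
      + ∑ j, ∑ a, u a x t j * pd j (fun y => p a y t) x
      = ν * ∑ j, ∑ a, ∑ i, u a x t i * pd j (pd j fun y => u a y t i) x := by
    rw [Finset.sum_comm (γ := Fin 3) (α := ι), Finset.sum_comm (γ := Fin 3) (α := ι),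
      Finset.sum_comm (γ := Fin 3) (α := ι), Finset.mul_sum, ← Finset.sum_add_distrib,
      ← Finset.sum_add_distrib]
    refine Finset.sum_congr rfl fun a _ => ?_
    have m0 := h.momentum a x t ht 0
    have m1 := h.momentum a x t ht 1
    have m2 := h.momentum a x t ht 2
    have e : ∑ j, ∑ b, ∑ d, c a b d * (u b x t j * ∑ i, u a x t i * pd j (fun y => u d y t i) x)
        = ∑ i, u a x t i * ∑ b, ∑ d, c a b d * ∑ j, u b x t j * pd j (fun y => u d y t i) x := by
      simp only [Fin.sum_univ_three, Finset.mul_sum, ← Finset.sum_add_distrib]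
      exact Finset.sum_congr rfl fun b _ => Finset.sum_congr rfl fun d _ => by ring
    rw [e]
    simp only [Fin.sum_univ_three] at m0 m1 m2 ⊢
    linear_combination u a x t 0 * m0 + u a x t 1 * m1 + u a x t 2 * m2
  rw [loc_time (F := fun s a i => u a x s i) hT]
  simp only [d2, d3, add_sub_cancel_left]
  rw [Finset.sum_add_distrib, d4, Finset.sum_add_distrib]
  linarith

theorem helicity {c : ι → ι → ι → ℝ} (h13 : ∀ a b d, c a b d = c d b a)
    (h23 : ∀ a b d, c a b d = c a d b) {v : ι → R3 → R3}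
    (hv : ∀ a i, ContDiff ℝ ∞ fun y => v a y i) (x : R3) :
    ∑ a, ∑ i, curl (v a) x i * ∑ b, ∑ d, c a b d * ∑ j, v b x j * pd j (fun y => v d y i) x =
      ∑ i, pd i (fun y =>
        (∑ a, ∑ b, ∑ d, c a b d * (curl (v a) y i * ∑ j, v b y j * v d y j)) / 2) x := by
  have hc : ∀ a i, (fun y => curl (v a) y i) = fun y =>
      pd (i + 1) (fun z => v a z (i + 2)) y - pd (i + 2) (fun z => v a z (i + 1)) y :=
    fun a i => rfl
  have hC : ∀ a i, ContDiff ℝ ∞ fun y => curl (v a) y i := fun a i => by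
    rw [hc]
    exact (contDiff_pd (hv a _) _).sub (contDiff_pd (hv a _) _)
  have d2 : ∀ a, ∑ i, pd i (fun y => curl (v a) y i) x = 0 := fun a => by
    have e : ∀ i, pd i (fun y => curl (v a) y i) x =
        pd i (pd (i + 1) fun z => v a z (i + 2)) x - pd i (pd (i + 2) fun z => v a z (i + 1)) x :=
      fun i => by
      rw [hc]
      exact pd_sub (loc_da (contDiff_pd (hv a _) _) x) (loc_da (contDiff_pd (hv a _) _) x) i
    simp only [e, Fin.sum_univ_three, Fin.isValue, zero_add, Fin.reduceAdd]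
    rw [pd_comm (hv a 2) 0 1, pd_comm (hv a 1) 0 2, pd_comm (hv a 0) 1 2]
    ring
  have d1 : ∀ i, pd i (fun y =>
      (∑ a, ∑ b, ∑ d, c a b d * (curl (v a) y i * ∑ j, v b y j * v d y j)) / 2) x =
      1 / 2 * ∑ a, ∑ b, ∑ d, c a b d * (pd i (fun y => curl (v a) y i) x * ∑ j, v b x j * v d x j)
        + ∑ a, ∑ b, ∑ d, c a b d *
          (curl (v a) x i * ∑ j, v b x j * pd i (fun y => v d y j) x) := fun i => by
    have e : (fun y => (∑ a, ∑ b, ∑ d, c a b d * (curl (v a) y i * ∑ j, v b y j * v d y j)) / 2)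
        = fun y => 1 / 2 * ∑ a, ∑ b, ∑ d, c a b d * (curl (v a) y i * ∑ j, v b y j * v d y j) := by
      funext y
      ring
    rw [e, pd_const_mul, loc_pd3 c (f := fun a y => curl (v a) y i) (g := fun a j y => v a y j)
      (h := fun a j y => v a y j) (fun a => hC a i) hv hv]
    have a1 : ∑ a, ∑ b, ∑ d, c a b d * (curl (v a) x i * ∑ j, pd i (fun y => v b y j) x * v d x j)
        = ∑ a, ∑ b, ∑ d, c a b d *
          (curl (v a) x i * ∑ j, v b x j * pd i (fun y => v d y j) x) := by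
      rw [loc_swap23]
      refine Finset.sum_congr rfl fun a _ => Finset.sum_congr rfl fun b _ =>
        Finset.sum_congr rfl fun d _ => ?_
      rw [← h23]
      simp only [mul_comm]
    simp only [mul_add, Finset.sum_add_distrib]
    rw [a1]
    ring
  have d3 : ∑ i, ∑ a, ∑ b, ∑ d,
      c a b d * (pd i (fun y => curl (v a) y i) x * ∑ j, v b x j * v d x j) = 0 := by
    rw [Finset.sum_comm]
    refine Finset.sum_eq_zero fun a _ => ?_
    rw [Finset.sum_comm]
    refine Finset.sum_eq_zero fun b _ => ?_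
    rw [Finset.sum_comm]
    refine Finset.sum_eq_zero fun d _ => ?_
    rw [← Finset.mul_sum, ← Finset.sum_mul, d2, zero_mul, mul_zero]
  simp only [d1]
  rw [Finset.sum_add_distrib, ← Finset.mul_sum, d3, mul_zero, zero_add]
  have cx : ∀ a i, curl (v a) x i =
      pd (i + 1) (fun z => v a z (i + 2)) x - pd (i + 2) (fun z => v a z (i + 1)) x :=
    fun a i => rfl
  obtain ⟨K, hK⟩ : ∃ K : ι → ι → ι → ℝ, K = fun a b d => c a b d * ∑ i, curl (v a) x i *
      ∑ j, v b x j * (pd j (fun y => v d y i) x - pd i (fun y => v d y j) x) := ⟨_, rfl⟩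
  have k1 : ∀ a b d, K d b a = -K a b d := fun a b d => by
    rw [hK]
    simp only [cx, Fin.sum_univ_three, Fin.isValue, zero_add, Fin.reduceAdd]
    rw [← h13]
    ring
  have k2 : ∑ a, ∑ b, ∑ d, K a b d = 0 := by
    have e1 := loc_swap13 K
    have e2 : ∑ a, ∑ b, ∑ d, K d b a = -∑ a, ∑ b, ∑ d, K a b d := by
      simp only [← Finset.sum_neg_distrib]
      exact Finset.sum_congr rfl fun a _ => Finset.sum_congr rfl fun b _ =>
        Finset.sum_congr rfl fun d _ => k1 a b d
    linarith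
  rw [← sub_eq_zero, ← k2, Finset.sum_comm (γ := Fin 3) (α := ι), ← Finset.sum_sub_distrib]
  refine Finset.sum_congr rfl fun a _ => ?_
  rw [hK]
  simp only [Fin.sum_univ_three, Finset.mul_sum, ← Finset.sum_add_distrib,
    ← Finset.sum_sub_distrib]
  exact Finset.sum_congr rfl fun b _ => Finset.sum_congr rfl fun d _ => by ring

/-- The conclusion `CBlowup` with the two local identities inside the existential. -/
theorem full_of_cblowup {ν : ℝ} {c : ι → ι → ι → ℝ} (h13 : ∀ a b d, c a b d = c d b a)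
    (h23 : ∀ a b d, c a b d = c a d b) (h : CBlowup ν c) :
    ∃ u0 : ι → SchwartzMap R3 R3, (∀ a x, ∑ i, pd i (fun y => u0 a y i) x = 0) ∧
      (∃ u p, CSol ν c (fun a => u0 a) (Ico 0 1) u p ∧
        (∀ t ∈ Ico (0 : ℝ) 1, energy (fun a x => u a x t) ≤ energy fun a => u0 a) ∧
        (∀ x, ∀ t ∈ Ico (0 : ℝ) 1,
          derivWithin (fun s => (∑ a, ∑ i, u a x s i ^ 2) / 2) (Ico 0 1) t
            + ∑ j, pd j (fun y =>
              (∑ a, ∑ b, ∑ d, c a b d * (u a y t j * ∑ i, u b y t i * u d y t i)) / 2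
                + ∑ a, u a y t j * p a y t) x
            = ν * ∑ j, (pd j (pd j fun y => (∑ a, ∑ i, u a y t i ^ 2) / 2) x
              - ∑ a, ∑ i, pd j (fun y => u a y t i) x ^ 2) ∧
          ∑ a, ∑ i, curl (fun y => u a y t) x i *
              ∑ b, ∑ d, c a b d * ∑ j, u b x t j * pd j (fun y => u d y t i) x =
            ∑ i, pd i (fun y => (∑ a, ∑ b, ∑ d,
              c a b d * (curl (fun z => u a z t) y i * ∑ j, u b y t j * u d y t j)) / 2) x) ∧
        ∃ W : ι → R3 → R3, W ≠ 0 ∧ (∃ C : ℝ, ∀ a y, ‖W a y‖ ≤ C / (1 + ‖y‖)) ∧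
          (∃ q, CSol ν c W (Ico 0 1) (fun a x t => (√(1 - t))⁻¹ • W a ((√(1 - t))⁻¹ • x)) q) ∧
          ∀ ε > 0, ∃ t0 < 1, ∀ t ∈ Ico t0 1, ∀ a y,
            ‖√(1 - t) • u a (√(1 - t) • y) t - W a y‖ ≤ ε) ∧
      ¬∃ u p, CSol ν c (fun a => u0 a) (Ici 0) u p ∧
        ∃ C < (⊤ : ℝ≥0∞), ∀ t ≥ 0, energy (fun a x => u a x t) ≤ C := by
  obtain ⟨u0, h1, ⟨u, p, h2, h3, h4⟩, h5⟩ := h
  exact ⟨u0, h1, ⟨u, p, h2, h3, fun x t ht => ⟨local_energy h13 h23 h2 x ht,
    helicity h13 h23 (v := fun a y => u a y t) (fun a i => (h2.ju a i).slice ht) x⟩, h4⟩, h5⟩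

end

end Pool.Agent.Work.MP_6bf1e5_an.Chaos
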