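import Pool.Agent.Work.MP_6bf1e5_an.Ang.Stmt

/-!
Definitions used in the statement about the polynomial chaos (stochastic Galerkin) truncation of
the Navier-Stokes equations on `ℝ³`.
-/

open scoped ContDiff ENNReal
open Set MeasureTheory ProbabilityTheory Pool.Agent.Work.MP_6bf1e5_an.Ens
  Pool.Agent.Work.MP_6bf1e5_an.Ang

namespace Pool.Agent.Work.MP_6bf1e5_an.Chaos

noncomputable section

/-- The standard Gaussian measure on `ℝⁿ`. -/
def gm (n : ℕ) : Measure (Fin n → ℝ) := Measure.pi fun _ => gaussianReal 0 1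

/-- `g` is a polynomial function of total degree at most `p`. -/
def IsPoly {n : ℕ} (p : ℕ) (g : (Fin n → ℝ) → ℝ) : Prop :=
  ∃ f : MvPolynomial (Fin n) ℝ, f.totalDegree ≤ p ∧ ∀ ξ, g ξ = MvPolynomial.eval ξ f

/-- The `i`-th component of the Navier-Stokes residual `∂ₜ u + (u·∇) u + ∇ q - ν Δ u`. -/
def res (ν : ℝ) (I : Set ℝ) (u : R3 → ℝ → R3) (q : R3 → ℝ → ℝ) (x : R3) (t : ℝ) (i : Fin 3) : ℝ :=
  derivWithin (fun s => u x s i) I t + ∑ j, u x t j * pd j (fun y => u y t i) x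
    + pd i (fun y => q y t) x - ν * ∑ j, pd j (pd j fun y => u y t i) x

/-- `(u, q)` depends polynomially, with degree at most `p`, on the Gaussian vector `ξ`; each sample
is smooth on `ℝ³ × I` and divergence free, `u (·,0) = u0`, and the Navier-Stokes residual is
orthogonal in `L² (gm n)` to all polynomials of degree at most `p`. -/
structure PCSol {n : ℕ} (p : ℕ) (ν : ℝ) (u0 : (Fin n → ℝ) → R3 → R3) (I : Set ℝ)
    (u : (Fin n → ℝ) → R3 → ℝ → R3) (q : (Fin n → ℝ) → R3 → ℝ → ℝ) : Prop where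
  poly_u : ∀ x, ∀ t ∈ I, ∀ i, IsPoly p fun ξ => u ξ x t i
  poly_q : ∀ x, ∀ t ∈ I, IsPoly p fun ξ => q ξ x t
  smooth_u : ∀ ξ, ContDiffOn ℝ ∞ (fun z : R3 × ℝ => u ξ z.1 z.2) (univ ×ˢ I)
  smooth_q : ∀ ξ, ContDiffOn ℝ ∞ (fun z : R3 × ℝ => q ξ z.1 z.2) (univ ×ˢ I)
  momentum : ∀ φ, IsPoly p φ → ∀ x, ∀ t ∈ I, ∀ i,
    ∫ ξ, φ ξ * res ν I (u ξ) (q ξ) x t i ∂gm n = 0
  divFree : ∀ ξ x, ∀ t ∈ I, ∑ i, pd i (fun y => u ξ y t i) x = 0
  initial : ∀ ξ x, u ξ x 0 = u0 ξ x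

/-- The mean energy `E ∫ |v|²` (possibly infinite). -/
def men {n : ℕ} (v : (Fin n → ℝ) → R3 → R3) : ℝ≥0∞ := ∫⁻ ξ, en (v ξ) ∂gm n

end

end Pool.Agent.Work.MP_6bf1e5_an.Chaos
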