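import Pool.Agent.Work.MP_6bf1e5_an.Chaos.Final
import Pool.Agent.Work.MP_6bf1e5_an.Chaos.PStmt
import Pool.Agent.Work.MP_6bf1e5_an.Chaos.Loc
import Pool.Agent.Work.MP_6bf1e5_an.Chaos.Basis

/-!
Translation between random fields and their coefficients in an orthonormal basis.
-/

open scoped ContDiff ENNReal
open MeasureTheory ProbabilityTheory MvPolynomial Finset Pool.Agent.Work.MP_6bf1e5_an.Ens
  Pool.Agent.Work.MP_6bf1e5_an.Ang

namespace Pool.Agent.Work.MP_6bf1e5_an.Chaos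

noncomputable section

variable {n p : ℕ} {ι : Type} [Fintype ι] [DecidableEq ι] {ψ : ι → MvPolynomial (Fin n) ℝ}

/-- An orthonormal basis of the polynomials of degree at most `p`. -/
structure ONB (p : ℕ) (ψ : ι → MvPolynomial (Fin n) ℝ) : Prop where
  deg : ∀ a, (ψ a).totalDegree ≤ p
  span : ∀ f : MvPolynomial (Fin n) ℝ, f.totalDegree ≤ p → f ∈ Submodule.span ℝ (Set.range ψ)
  orth : ∀ a b, gmean (ψ a * ψ b) = if a = b then 1 else 0

/-- The tensor of third moments. -/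
def c3 (ψ : ι → MvPolynomial (Fin n) ℝ) (a b d : ι) : ℝ := gmean (ψ a * ψ b * ψ d)

/-- The polynomial with coefficients `k`. -/
def pc (ψ : ι → MvPolynomial (Fin n) ℝ) (k : ι → ℝ) : MvPolynomial (Fin n) ℝ := ∑ a, k a • ψ a

/-- The values of the basis at `ξ`. -/
def ev (ψ : ι → MvPolynomial (Fin n) ℝ) (ξ : Fin n → ℝ) (a : ι) : ℝ := eval ξ (ψ a)

omit [DecidableEq ι] in
theorem eval_pc (k : ι → ℝ) (ξ : Fin n → ℝ) : eval ξ (pc ψ k) = ∑ a, ev ψ ξ a * k a := by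
  simp only [pc, map_sum, smul_eval, ev, mul_comm]

theorem int_E (f : MvPolynomial (Fin n) ℝ) : ∫ ξ, eval ξ f ∂gm n = E f := rfl

theorem ONB.pc_deg (h : ONB p ψ) (k : ι → ℝ) : (pc ψ k).totalDegree ≤ p :=
  totalDegree_finsetSum_le fun a _ => (totalDegree_smul_le _ _).trans (h.deg a)

theorem ONB.poly (h : ONB p ψ) (k : ι → ℝ) : IsPoly p fun ξ => ∑ a, ev ψ ξ a * k a :=
  ⟨pc ψ k, h.pc_deg k, fun ξ => (eval_pc k ξ).symm⟩

theorem ONB.E2 (h : ONB p ψ) (k l : ι → ℝ) : E (pc ψ k * pc ψ l) = ∑ a, k a * l a := by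
  simp only [pc, sum_mul_sum, smul_mul_smul_comm, map_sum, map_smul, smul_eq_mul, E_apply, h.orth,
    mul_ite, mul_one, mul_zero, sum_ite_eq, mem_univ, if_true]

theorem ONB.E1 (h : ONB p ψ) (a : ι) (l : ι → ℝ) : E (ψ a * pc ψ l) = l a := by
  simp only [pc, mul_sum, mul_smul_comm, map_sum, map_smul, smul_eq_mul, E_apply, h.orth,
    mul_ite, mul_one, mul_zero, sum_ite_eq, mem_univ, if_true]

omit [DecidableEq ι] in
theorem E3a (a : ι) (l m : ι → ℝ) :
    E (ψ a * (pc ψ l * pc ψ m)) = ∑ b, ∑ d, c3 ψ a b d * (l b * m d) := by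
  rw [pc, pc, sum_mul_sum]
  simp only [mul_sum, smul_mul_assoc, mul_smul_comm, map_sum, map_smul, smul_eq_mul, E_apply,
    c3, mul_assoc]
  exact sum_congr rfl fun b _ => sum_congr rfl fun d _ => by ring

omit [DecidableEq ι] in
theorem E_pc (k : ι → ℝ) (f : MvPolynomial (Fin n) ℝ) :
    E (pc ψ k * f) = ∑ a, k a * E (ψ a * f) := by
  simp only [pc, sum_mul, smul_mul_assoc, map_sum, map_smul, smul_eq_mul]

theorem ONB.coef (h : ONB p ψ) {g : (Fin n → ℝ) → ℝ} (hg : IsPoly p g) :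
    ∃ k : ι → ℝ, ∀ ξ, g ξ = ∑ a, ev ψ ξ a * k a := by
  obtain ⟨f, hf, e⟩ := hg
  obtain ⟨k, rfl⟩ := (Submodule.mem_span_range_iff_exists_fun ℝ).1 (h.span f hf)
  exact ⟨k, fun ξ => (e ξ).trans (eval_pc k ξ)⟩

theorem ONB.inj (h : ONB p ψ) {k : ι → ℝ} (hk : ∀ ξ, ∑ a, ev ψ ξ a * k a = 0) : k = 0 := by
  have e : pc ψ k = 0 := MvPolynomial.funext fun ξ => by rw [eval_pc, hk, map_zero]
  funext a
  rw [← h.E1 a k, e, mul_zero, map_zero]
  rfl

/-- The coefficients are finite combinations of point values. -/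
theorem ONB.dual (h : ONB p ψ) (a : ι) : ∃ s : (Fin n → ℝ) →₀ ℝ, ∀ k : ι → ℝ,
    ∑ ξ ∈ s.support, s ξ * ∑ b, ev ψ ξ b * k b = k a := by
  have htop : Submodule.span ℝ (Set.range (ev ψ)) = ⊤ := by
    by_contra hne
    obtain ⟨f, hf, hker⟩ := Submodule.exists_le_ker_of_lt_top _ (lt_top_iff_ne_top.2 hne)
    have e := h.inj (k := fun b => f fun j => if b = j then 1 else 0) fun ξ => by
      have h1 : f (ev ψ ξ) = 0 := hker (Submodule.subset_span ⟨ξ, rfl⟩)
      rw [LinearMap.pi_apply_eq_sum_univ] at h1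
      exact h1
    refine hf (LinearMap.ext fun v => ?_)
    rw [LinearMap.pi_apply_eq_sum_univ]
    exact sum_eq_zero fun b _ => by rw [congrFun e b]; simp
  have hm : (Pi.single a 1 : ι → ℝ) ∈ Submodule.span ℝ (Set.range (ev ψ)) := by
    rw [htop]
    trivial
  obtain ⟨s, hs⟩ := Finsupp.mem_span_range_iff_exists_finsupp.1 hm
  refine ⟨s, fun k => ?_⟩
  have e : ∀ b, ∑ ξ ∈ s.support, s ξ * ev ψ ξ b = if b = a then 1 else 0 := fun b => by
    have := congrFun hs b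
    simpa [Finsupp.sum, Finset.sum_apply, Pi.single_apply] using this
  simp only [mul_sum]
  rw [sum_comm]
  simp only [← mul_assoc, ← sum_mul, e, ite_mul, one_mul, zero_mul, sum_ite_eq', mem_univ, if_true]

theorem ONB.smooth_coef (h : ONB p ψ) {I : Set ℝ} {g : (Fin n → ℝ) → R3 → ℝ → ℝ}
    (hp : ∀ x, ∀ t ∈ I, IsPoly p fun ξ => g ξ x t) (hs : ∀ ξ, JS I (g ξ)) :
    ∃ k : ι → R3 → ℝ → ℝ, (∀ a, JS I (k a)) ∧
      ∀ x, ∀ t ∈ I, ∀ ξ, g ξ x t = ∑ a, ev ψ ξ a * k a x t := by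
  choose s hs' using h.dual
  refine ⟨fun a x t => ∑ ξ ∈ (s a).support, s a ξ * g ξ x t,
    fun a => JS.sum _ fun ξ _ => (hs ξ).const_mul _, fun x t ht ξ => ?_⟩
  obtain ⟨k, hk⟩ := h.coef (hp x t ht)
  simp only [hk, hs']

omit [DecidableEq ι] in
/-- The residual of a combination. -/
theorem res_comb {ν : ℝ} {I : Set ℝ} {v : ι → R3 → ℝ → R3} {r : ι → R3 → ℝ → ℝ}
    (hv : ∀ a i, JS I fun x t => v a x t i) (hr : ∀ a, JS I (r a)) (m : ι → ℝ)
    {u : R3 → ℝ → R3} {q : R3 → ℝ → ℝ} (eu : ∀ x, ∀ t ∈ I, ∀ i, u x t i = ∑ a, m a * v a x t i)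
    (eq : ∀ x, ∀ t ∈ I, q x t = ∑ a, m a * r a x t) (x : R3) {t : ℝ} (ht : t ∈ I) (i : Fin 3) :
    res ν I u q x t i = ∑ a, m a * (derivWithin (fun s => v a x s i) I t
        + pd i (fun y => r a y t) x - ν * ∑ j, pd j (pd j fun y => v a y t i) x)
      + ∑ j, (∑ b, m b * v b x t j) * ∑ d, m d * pd j (fun y => v d y t i) x := by
  have e1 : (fun y => u y t i) = fun y => ∑ a, m a * v a y t i := funext fun y => eu y t ht i
  have e2 : (fun y => q y t) = fun y => ∑ a, m a * r a y t := funext fun y => eq y t ht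
  have e3 : derivWithin (fun s => u x s i) I t = ∑ a, m a * derivWithin (fun s => v a x s i) I t := by
    rw [derivWithin_congr (fun s hs => eu x s hs i) (eu x t ht i),
      derivWithin_fun_sum fun a _ =>
        ((basic_time (hv a i) x ht).differentiableWithinAt.const_mul (m a))]
    exact sum_congr rfl fun a _ =>
      derivWithin_const_mul _ (basic_time (hv a i) x ht).differentiableWithinAt
  have hs : ∀ a, ContDiff ℝ ∞ fun y => v a y t i := fun a => (hv a i).slice ht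
  have e4 : ν * ∑ j, ∑ a, m a * pd j (pd j fun y => v a y t i) x =
      ∑ a, m a * (ν * ∑ j, pd j (pd j fun y => v a y t i) x) := by
    rw [sum_comm, mul_sum]
    exact sum_congr rfl fun a _ => by rw [← mul_sum]; ring
  simp only [res, e1, e2, e3, pd_comb m hs, pd_comb m fun a => (hr a).slice ht,
    pd_comb m fun a => contDiff_pd (hs a) _, eu x t ht, e4, mul_add, mul_sub, sum_add_distrib,
    sum_sub_distrib]
  ring

omit [DecidableEq ι] in
theorem res_poly {ν : ℝ} {I : Set ℝ} {v : ι → R3 → ℝ → R3} {r : ι → R3 → ℝ → ℝ}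
    (hv : ∀ a i, JS I fun x t => v a x t i) (hr : ∀ a, JS I (r a))
    {u : (Fin n → ℝ) → R3 → ℝ → R3} {q : (Fin n → ℝ) → R3 → ℝ → ℝ}
    (eu : ∀ x, ∀ t ∈ I, ∀ i ξ, u ξ x t i = ∑ a, ev ψ ξ a * v a x t i)
    (eq : ∀ x, ∀ t ∈ I, ∀ ξ, q ξ x t = ∑ a, ev ψ ξ a * r a x t) (x : R3) {t : ℝ} (ht : t ∈ I)
    (i : Fin 3) (ξ : Fin n → ℝ) :
    res ν I (u ξ) (q ξ) x t i = eval ξ (pc ψ (fun a => derivWithin (fun s => v a x s i) I t
        + pd i (fun y => r a y t) x - ν * ∑ j, pd j (pd j fun y => v a y t i) x)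
      + ∑ j, pc ψ (fun b => v b x t j) * pc ψ fun d => pd j (fun y => v d y t i) x) := by
  rw [res_comb hv hr (ev ψ ξ) (fun x t ht i => eu x t ht i ξ) (fun x t ht => eq x t ht ξ) x ht i]
  simp only [map_add, map_sum, map_mul, eval_pc]

theorem ONB.E_res (h : ONB p ψ) (a : ι) (l : ι → ℝ) (k m : Fin 3 → ι → ℝ) :
    E (ψ a * (pc ψ l + ∑ j, pc ψ (k j) * pc ψ (m j))) =
      l a + ∑ b, ∑ d, c3 ψ a b d * ∑ j, k j b * m j d := by
  rw [mul_add, map_add, h.E1, mul_sum, map_sum]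
  simp only [E3a, mul_sum]
  congr 1
  rw [sum_comm]
  exact sum_congr rfl fun b _ => sum_comm

/-- The random field with coefficients `v`. -/
def lift (ψ : ι → MvPolynomial (Fin n) ℝ) (v : ι → R3 → ℝ → R3) (ξ : Fin n → ℝ) (x : R3) (t : ℝ) :
    R3 := ∑ a, ev ψ ξ a • v a x t

omit [DecidableEq ι] in
theorem lift_apply (v : ι → R3 → ℝ → R3) (ξ : Fin n → ℝ) (x : R3) (t : ℝ) (i : Fin 3) :
    lift ψ v ξ x t i = ∑ a, ev ψ ξ a * v a x t i := by
  simp [lift]

theorem ONB.fwd (h : ONB p ψ) {ν : ℝ} {I : Set ℝ} {v0 : ι → R3 → R3} {v : ι → R3 → ℝ → R3}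
    {r : ι → R3 → ℝ → ℝ} (hs : CSol ν (c3 ψ) v0 I v r) :
    PCSol p ν (fun ξ x => ∑ a, ev ψ ξ a • v0 a x) I (lift ψ v)
      fun ξ x t => ∑ a, ev ψ ξ a * r a x t := by
  refine ⟨fun x t _ i => ?_, fun x t _ => h.poly _, fun ξ => ?_,
    fun ξ => JS.sum _ fun a _ => (hs.jp a).const_mul _, fun φ hφ x t ht i => ?_,
    fun ξ x t ht => ?_, fun ξ x => ?_⟩
  · simp only [lift_apply]
    exact h.poly _
  · refine contDiffOn_vec.2 fun i => ?_
    simp only [lift_apply]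
    exact JS.sum _ fun a _ => (hs.ju a i).const_mul _
  · obtain ⟨k, hk⟩ := h.coef hφ
    simp only [res_poly (ψ := ψ) (q := fun ξ x t => ∑ a, ev ψ ξ a * r a x t) hs.ju hs.jp
      (fun x t _ i ξ => lift_apply v ξ x t i) (fun _ _ _ _ => rfl) x ht i]
    simp only [hk, ← eval_pc, ← map_mul]
    rw [int_E, E_pc]
    refine sum_eq_zero fun a _ => ?_
    have e := hs.momentum a x t ht i
    rw [h.E_res, mul_eq_zero_of_right]
    linarith
  · simp only [lift_apply, pd_comb _ fun a => (hs.ju a _).slice ht]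
    rw [sum_comm]
    simp only [← mul_sum, hs.divFree _ x t ht, mul_zero, sum_const_zero]
  · simp only [lift, hs.initial]

theorem ONB.bwd (h : ONB p ψ) {ν : ℝ} {I : Set ℝ} (h0 : (0 : ℝ) ∈ I) {v0 : ι → R3 → R3}
    {u : (Fin n → ℝ) → R3 → ℝ → R3} {q : (Fin n → ℝ) → R3 → ℝ → ℝ}
    (hs : PCSol p ν (fun ξ x => ∑ a, ev ψ ξ a • v0 a x) I u q) :
    ∃ v r, CSol ν (c3 ψ) v0 I v r ∧ ∀ t ∈ I, ∀ ξ x, u ξ x t = ∑ a, ev ψ ξ a • v a x t := by
  choose k hk ek using fun i => h.smooth_coef (g := fun ξ x t => u ξ x t i)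
    (fun x t ht => hs.poly_u x t ht i) fun ξ => contDiffOn_vec.1 (hs.smooth_u ξ) i
  obtain ⟨r, hr, er⟩ := h.smooth_coef hs.poly_q hs.smooth_q
  let v : ι → R3 → ℝ → R3 := fun a x t => WithLp.toLp 2 fun i => k i a x t
  have hv : ∀ a i, JS I fun x t => v a x t i := fun a i => hk i a
  have ev' : ∀ x, ∀ t ∈ I, ∀ i ξ, u ξ x t i = ∑ a, ev ψ ξ a * v a x t i :=
    fun x t ht i ξ => ek i x t ht ξ
  refine ⟨v, r, ⟨fun a => contDiffOn_vec.2 (hv a), hr, fun a x t ht i => ?_, fun a x t ht => ?_,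
    fun a x => ?_⟩, fun t ht ξ x => ?_⟩
  · have e := hs.momentum (fun ξ => eval ξ (ψ a)) ⟨ψ a, h.deg a, fun _ => rfl⟩ x t ht i
    simp only [res_poly (ψ := ψ) hv hr ev' er x ht i, ← map_mul] at e
    rw [int_E, h.E_res] at e
    linarith
  · refine congrFun (h.inj (k := fun a => ∑ i, pd i (fun y => v a y t i) x) fun ξ => ?_) a
    have e := hs.divFree ξ x t ht
    simp only [fun i => (funext fun y => ev' y t ht i ξ : (fun y => u ξ y t i) = _),
      pd_comb _ fun a => (hv a _).slice ht] at e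
    rw [sum_comm] at e
    simpa only [mul_sum] using e
  · ext i
    have e := h.inj (k := fun a => v a x 0 i - v0 a x i) fun ξ => by
      have e1 := ev' x 0 h0 i ξ
      rw [hs.initial] at e1
      simp only [mul_sub, sum_sub_distrib, ← e1]
      simp
    exact sub_eq_zero.1 (congrFun e a)
  · ext i
    rw [ev' x t ht i ξ]
    simp

theorem ONB.int_sq (h : ONB p ψ) (k : ι → R3) :
    ∫ ξ, ‖∑ a, ev ψ ξ a • k a‖ ^ 2 ∂gm n = ∑ a, ∑ i, k a i ^ 2 ∧
      Integrable (fun ξ => ‖∑ a, ev ψ ξ a • k a‖ ^ 2) (gm n) := by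
  have e : (fun ξ => ‖∑ a, ev ψ ξ a • k a‖ ^ 2) =
      fun ξ => eval ξ (∑ i, pc ψ (fun a => k a i) * pc ψ fun a => k a i) := by
    funext ξ
    rw [norm_sq_eq_sum]
    simp [eval_pc, sq]
  rw [e]
  refine ⟨?_, int_eval _⟩
  rw [int_E, map_sum, sum_comm]
  simp only [h.E2, sq]

theorem ONB.men_eq (h : ONB p ψ) {v : ι → R3 → R3} (hv : ∀ a, Continuous (v a)) :
    men (fun ξ x => ∑ a, ev ψ ξ a • v a x) = energy v := by
  have hP : IsProbabilityMeasure (gm n) := by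
    unfold gm
    infer_instance
  have hc : Continuous fun z : (Fin n → ℝ) × R3 => ∑ a, ev ψ z.1 a • v a z.2 :=
    continuous_finsetSum _ fun a _ =>
      ((ψ a).continuous_eval.comp continuous_fst).smul ((hv a).comp continuous_snd)
  have e1 : ∀ w : R3, ‖w‖ₑ ^ 2 = ENNReal.ofReal (‖w‖ ^ 2) := fun w => by
    rw [← ofReal_norm, ← ENNReal.ofReal_pow (norm_nonneg _)]
  unfold men en energy
  rw [lintegral_lintegral_swap (hc.measurable.enorm.pow_const 2).aemeasurable,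
    ← lintegral_finsetSum _ fun a _ => (hv a).measurable.enorm.pow_const 2]
  refine lintegral_congr fun x => ?_
  obtain ⟨k1, k2⟩ := h.int_sq fun a => v a x
  simp only [e1]
  rw [← ofReal_integral_eq_lintegral_ofReal k2 (Filter.Eventually.of_forall fun _ => sq_nonneg _),
    k1, ← ENNReal.ofReal_sum_of_nonneg fun a _ => sq_nonneg _]
  simp only [norm_sq_eq_sum]

end

end Pool.Agent.Work.MP_6bf1e5_an.Chaos
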