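import Pool.Agent.Work.MP_6bf1e5_an.Chaos.Stmt

/-!
Moments of the standard normal law, the integration by parts formula for polynomials, and parity.
-/

open MeasureTheory ProbabilityTheory MvPolynomial Finset

namespace Pool.Agent.Work.MP_6bf1e5_an.Chaos

noncomputable section

/-- The moments of the standard normal law. -/
def mom (k : ℕ) : ℝ := ∫ x : ℝ, x ^ k ∂(gaussianReal 0 1)

theorem int_pow (k : ℕ) : Integrable (fun x : ℝ => x ^ k) (gaussianReal 0 1) := by
  have h : (0 : ℝ) ∈ interior (integrableExpSet id (gaussianReal 0 1)) := by simp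
  simpa using integrable_pow_of_mem_interior_integrableExpSet h k

theorem mom_zero : mom 0 = 1 := by simp [mom]

theorem mom_eq (k : ℕ) : mom k = iteratedDeriv k (fun t : ℝ => Real.exp (t ^ 2 / 2)) 0 := by
  have h : (0 : ℝ) ∈ interior (integrableExpSet id (gaussianReal 0 1)) := by simp
  have e := iteratedDeriv_mgf_zero h k
  rw [mgf_id_gaussianReal] at e
  simp only [zero_mul, NNReal.coe_one, one_mul, zero_add] at e
  rw [e, mom]
  rfl

theorem iter_mul (f : ℝ → ℝ) (hf : ContDiff ℝ ⊤ f) (k : ℕ) :
    iteratedDeriv (k + 1) (fun t => t * f t) =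
      fun t => t * iteratedDeriv (k + 1) f t + (k + 1 : ℝ) * iteratedDeriv k f t := by
  have hd : ∀ j t, HasDerivAt (iteratedDeriv j f) (iteratedDeriv (j + 1) f t) t := fun j t => by
    rw [iteratedDeriv_succ]
    exact ((hf.differentiable_iteratedDeriv j (by simp)) t).hasDerivAt
  induction k with
  | zero =>
    funext t
    rw [iteratedDeriv_succ, iteratedDeriv_zero]
    have h := ((hasDerivAt_id' t).mul (hd 0 t)).deriv
    rw [iteratedDeriv_zero] at h
    refine h.trans ?_
    simp [add_comm]
  | succ k ih =>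
    funext t
    rw [iteratedDeriv_succ, ih]
    have h := (((hasDerivAt_id' t).mul (hd (k + 1) t)).add ((hd k t).const_mul (k + 1 : ℝ))).deriv
    refine h.trans ?_
    push_cast
    ring

theorem mom_succ (k : ℕ) : mom (k + 1) = k * mom (k - 1) := by
  have hf : ContDiff ℝ ⊤ fun t : ℝ => Real.exp (t ^ 2 / 2) := by fun_prop
  have e : deriv (fun t : ℝ => Real.exp (t ^ 2 / 2)) = fun t => t * Real.exp (t ^ 2 / 2) := by
    funext t
    have h := (((hasDerivAt_id' t).pow 2).div_const 2).exp.deriv
    refine h.trans ?_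
    simp only [Pi.pow_apply]
    ring
  rw [mom_eq, iteratedDeriv_succ', e]
  cases k with
  | zero => simp
  | succ k =>
    rw [iter_mul _ hf, mom_eq]
    simp

theorem mom_odd {k : ℕ} (hk : Odd k) : mom k = 0 := by
  obtain ⟨j, rfl⟩ := hk
  induction j with
  | zero => simpa using mom_succ 0
  | succ j ih =>
    have e : 2 * (j + 1) + 1 = (2 * j + 2) + 1 := by ring
    rw [e, mom_succ]
    have e2 : 2 * j + 2 - 1 = 2 * j + 1 := by omega
    rw [e2, ih, mul_zero]

variable {σ : Type} [Fintype σ]

theorem eval_mono (m : σ →₀ ℕ) (a : ℝ) (ξ : σ → ℝ) :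
    eval ξ (monomial m a) = a * ∏ v, ξ v ^ m v := by
  rw [eval_monomial, Finsupp.prod_fintype _ _ fun _ => pow_zero _]

theorem int_eval (f : MvPolynomial σ ℝ) :
    Integrable (fun ξ : σ → ℝ => eval ξ f) (Measure.pi fun _ => gaussianReal 0 1) := by
  induction f using MvPolynomial.induction_on' with
  | monomial m a =>
    simp only [eval_mono]
    exact (Integrable.fintype_prod (f := fun v (x : ℝ) => x ^ m v) fun v => int_pow _).const_mul a
  | add p q hp hq =>
    simp only [map_add]
    exact hp.add hq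

/-- The mean as a linear map. -/
def E : MvPolynomial σ ℝ →ₗ[ℝ] ℝ where
  toFun := gmean
  map_add' p q := by
    simp only [gmean, map_add]
    exact integral_add (int_eval p) (int_eval q)
  map_smul' a p := by
    simp only [gmean, smul_eval, RingHom.id_apply, smul_eq_mul]
    exact integral_const_mul a _

theorem E_apply (f : MvPolynomial σ ℝ) : E f = gmean f := rfl

theorem E_mono (m : σ →₀ ℕ) (a : ℝ) : E (monomial m a) = a * ∏ v, mom (m v) := by
  simp only [E_apply, gmean, eval_mono]
  rw [integral_const_mul, integral_fintype_prod_eq_prod (f := fun v (x : ℝ) => x ^ m v)]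
  rfl

theorem E_one : E (1 : MvPolynomial σ ℝ) = 1 := by
  have h := E_mono (σ := σ) 0 1
  simpa [mom_zero] using h

theorem E_C_mul (a : ℝ) (f : MvPolynomial σ ℝ) : E (C a * f) = a * E f := by
  rw [C_mul', map_smul, smul_eq_mul]

/-- Integration by parts. -/
theorem stein [DecidableEq σ] (v : σ) (f : MvPolynomial σ ℝ) : E (X v * f) = E (pderiv v f) := by
  induction f using MvPolynomial.induction_on' with
  | monomial m a =>
    rw [pderiv_monomial, X, monomial_mul, E_mono, E_mono, one_mul,
      ← Finset.mul_prod_erase _ _ (mem_univ v), ← Finset.mul_prod_erase _ _ (mem_univ v)]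
    have e1 : ∏ u ∈ univ.erase v, mom ((Finsupp.single v 1 + m : σ →₀ ℕ) u)
        = ∏ u ∈ univ.erase v, mom (m u) :=
      prod_congr rfl fun u hu => by
        simp [Finsupp.single_eq_of_ne (ne_of_mem_erase hu)]
    have e2 : ∏ u ∈ univ.erase v, mom ((m - Finsupp.single v 1 : σ →₀ ℕ) u)
        = ∏ u ∈ univ.erase v, mom (m u) :=
      prod_congr rfl fun u hu => by
        simp [Finsupp.single_eq_of_ne (ne_of_mem_erase hu)]
    rw [e1, e2]
    simp only [Finsupp.coe_add, Pi.add_apply, Finsupp.single_eq_same, Finsupp.coe_tsub,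
      Pi.sub_apply]
    rw [add_comm 1, mom_succ]
    ring
  | add p q hp hq => rw [mul_add, map_add, map_add, map_add, hp, hq]

/-- The weight that counts the variables in `S`. -/
def w [DecidableEq σ] (S : Finset σ) (v : σ) : ℕ := if v ∈ S then 1 else 0

theorem weight_w [DecidableEq σ] (S : Finset σ) (m : σ →₀ ℕ) :
    Finsupp.weight (w S) m = ∑ v ∈ S, m v := by
  rw [Finsupp.weight_apply, Finsupp.sum_fintype _ _ fun _ => by simp]
  simp only [w, smul_eq_mul, mul_ite, mul_one, mul_zero]
  rw [← Finset.sum_filter]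
  simp

/-- Parity. -/
theorem E_odd [DecidableEq σ] {S : Finset σ} {f : MvPolynomial σ ℝ} {k : ℕ}
    (hf : IsWeightedHomogeneous (w S) f k) (hk : Odd k) : E f = 0 := by
  rw [f.as_sum, map_sum]
  refine sum_eq_zero fun m hm => ?_
  have h := hf (mem_support_iff.1 hm)
  rw [weight_w] at h
  have : ∃ v ∈ S, Odd (m v) := by
    by_contra hc
    push Not at hc
    have : Even (∑ v ∈ S, m v) :=
      Finset.even_sum _ fun v hv => Nat.not_odd_iff_even.1 (hc v hv)
    rw [h] at this
    exact (Nat.not_even_iff_odd.2 hk) this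
  obtain ⟨v, -, hv⟩ := this
  rw [E_mono, prod_eq_zero (mem_univ v) (mom_odd hv), mul_zero]

end

end Pool.Agent.Work.MP_6bf1e5_an.Chaos
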