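import Pool.Agent.Work.MP_6bf1e5_an.Chaos.Alg

/-!
Quadratic forms of a map that is a harmonic morphism in each block of variables: the projection of
the product of two such forms onto the polynomials of low degree.
-/

open MvPolynomial Finset Matrix

namespace Pool.Agent.Work.MP_6bf1e5_an.Chaos

noncomputable section

variable {σ : Type} [Fintype σ] [DecidableEq σ]

/-- Real `3 × 3` matrices. -/
abbrev M3 := Matrix (Fin 3) (Fin 3) ℝ

/-- A polynomial map to `ℝ³` that is a homogeneous harmonic morphism in each block. -/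
structure Good (B : Finset (Finset σ × ℕ)) (F : Fin 3 → MvPolynomial σ ℝ) : Prop where
  disj : ∀ b ∈ B, ∀ b' ∈ B, b ≠ b' → Disjoint b.1 b'.1
  ne : ∀ b ∈ B, b.1.Nonempty
  hom : ∀ b ∈ B, ∀ i, Hom b.1 (F i) b.2
  harm : ∀ b ∈ B, ∀ i, L b.1 (F i) = 0
  conf : ∀ b ∈ B, ∃ lam, ∀ i j, G b.1 (F i) (F j) = if i = j then lam else 0
  norm : ∑ i, F i * F i = ∏ b ∈ B, rsq b.1 ^ b.2
  out : ∀ T, (∀ b ∈ B, Disjoint b.1 T) → ∀ i, Hom T (F i) 0
  deg : ∀ i, (F i).IsHomogeneous (∑ b ∈ B, b.2)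

/-- The quadratic form of `X` evaluated at `F`. -/
def q (F : Fin 3 → MvPolynomial σ ℝ) : M3 →ₗ[ℝ] MvPolynomial σ ℝ where
  toFun X := ∑ i, ∑ j, X i j • (F i * F j)
  map_add' X Y := by simp only [Matrix.add_apply, add_smul, sum_add_distrib]
  map_smul' a X := by simp only [Matrix.smul_apply, smul_eq_mul, mul_smul, smul_sum, RingHom.id_apply]

/-- The traceless part of the symmetrised product. -/
def jp (X Y : M3) : M3 := (1 / 2 : ℝ) • (X * Y + Y * X) - ((X * Y).trace / 3) • (1 : M3)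

section
omit [Fintype σ] [DecidableEq σ]
variable {F : Fin 3 → MvPolynomial σ ℝ} {S : Finset σ} {lam : MvPolynomial σ ℝ}

theorem q_apply (X : M3) : q F X = ∑ i, ∑ j, X i j • (F i * F j) := rfl

theorem q_one : q F 1 = ∑ i, F i * F i := by
  simp [q_apply, Matrix.one_apply, ite_smul]

theorem q_transpose (X : M3) : q F Xᵀ = q F X := by
  rw [q_apply, q_apply, sum_comm]
  simp only [transpose_apply, mul_comm]

theorem jp_symm {X Y : M3} (hX : X.IsSymm) (hY : Y.IsSymm) : (jp X Y).IsSymm := by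
  unfold jp Matrix.IsSymm
  rw [transpose_sub, transpose_smul, transpose_smul, transpose_add, transpose_mul, transpose_mul,
    hX.eq, hY.eq, transpose_one, add_comm]

theorem jp_trace (X Y : M3) : (jp X Y).trace = 0 := by
  rw [jp, trace_sub, trace_smul, trace_smul, trace_add, trace_mul_comm Y X, trace_one]
  simp only [smul_eq_mul, Fintype.card_fin]
  push_cast
  ring

theorem q_jp {X Y : M3} (hX : X.IsSymm) (hY : Y.IsSymm) :
    q F (jp X Y) = q F (X * Y) - ((X * Y).trace / 3) • q F 1 := by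
  have e : q F (Y * X) = q F (X * Y) := by
    rw [← q_transpose, transpose_mul, hX.eq, hY.eq]
  rw [jp, map_sub, map_smul, map_smul, map_add, e]
  module

theorem L_q (harm : ∀ i, L S (F i) = 0)
    (conf : ∀ i j, G S (F i) (F j) = if i = j then lam else 0) (X : M3) :
    L S (q F X) = (2 * X.trace) • lam := by
  simp only [q_apply, map_sum, map_smul, L_mul, harm, conf, mul_zero, zero_add, mul_ite, smul_ite,
    smul_zero, sum_ite_eq, mem_univ, if_true, trace, diag_apply, ← sum_smul]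
  rw [mul_comm (2 : ℝ), mul_smul, two_smul, two_mul]

theorem G_comb (conf : ∀ i j, G S (F i) (F j) = if i = j then lam else 0)
    {f g : MvPolynomial σ ℝ} {a b : Fin 3 → MvPolynomial σ ℝ}
    (hf : ∀ v, pderiv v f = ∑ i, a i * pderiv v (F i))
    (hg : ∀ v, pderiv v g = ∑ i, b i * pderiv v (F i)) : G S f g = lam * ∑ i, a i * b i := by
  have e : G S f g = ∑ i, ∑ j, a i * b j * G S (F i) (F j) := by
    simp only [G, hf, hg, sum_mul_sum]
    simp only [mul_sum]
    rw [sum_comm]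
    refine sum_congr rfl fun i _ => ?_
    rw [sum_comm]
    exact sum_congr rfl fun j _ => sum_congr rfl fun v _ => by ring
  simp only [e, conf, mul_ite, mul_zero, sum_ite_eq, mem_univ, if_true, mul_sum]
  exact sum_congr rfl fun i _ => by ring

theorem pd_q {X : M3} (hX : X.IsSymm) (v : σ) :
    pderiv v (q F X) = ∑ i, (2 * ∑ j, X i j • F j) * pderiv v (F i) := by
  have h1 := hX.apply 0 1
  have h2 := hX.apply 0 2
  have h3 := hX.apply 1 2
  simp only [q_apply, Fin.sum_univ_three, map_add, smul_eq_C_mul, pderiv_C, pderiv_mul, h1, h2, h3]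
  ring

theorem G_q (conf : ∀ i j, G S (F i) (F j) = if i = j then lam else 0) {X Y : M3} (hX : X.IsSymm)
    (hY : Y.IsSymm) : G S (q F X) (q F Y) = 4 * lam * q F (X * Y) := by
  have h1 := hX.apply 0 1
  have h2 := hX.apply 0 2
  have h3 := hX.apply 1 2
  rw [G_comb conf (pd_q hX) (pd_q hY)]
  simp only [q_apply, Fin.sum_univ_three, Matrix.mul_apply, smul_eq_C_mul, map_add, map_mul, h1, h2,
    h3]
  ring

/-- The part of angular momentum four of the product of two forms. -/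
def H4 (F : Fin 3 → MvPolynomial σ ℝ) (X Y : M3) : MvPolynomial σ ℝ :=
  q F X * q F Y - (4 / 7 : ℝ) • (q F 1 * q F (jp X Y))
    - (2 / 15 * (X * Y).trace) • (q F 1 * q F 1)

theorem L_H4 (harm : ∀ i, L S (F i) = 0)
    (conf : ∀ i j, G S (F i) (F j) = if i = j then lam else 0) {X Y : M3} (hX : X.IsSymm)
    (hY : Y.IsSymm) (tX : X.trace = 0) (tY : Y.trace = 0) : L S (H4 F X Y) = 0 := by
  have h1 : (1 : M3).IsSymm := Matrix.isSymm_one
  simp only [H4, map_sub, map_smul, L_mul, L_q harm conf, G_q conf hX hY,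
    G_q conf h1 (jp_symm hX hY), G_q conf h1 h1, tX, tY, jp_trace, trace_one, Matrix.one_mul,
    Fintype.card_fin]
  rw [q_jp hX hY]
  generalize q F (X * Y) = u
  generalize q F 1 = r
  generalize (X * Y).trace = t
  have e1 : ∀ a : ℝ, ∀ f : MvPolynomial σ ℝ, r * (a • f) = a • (r * f) := fun a f => mul_smul_comm a r f
  have e2 : 2 * (4 * lam * u) = (8 : ℝ) • (lam * u) := by
    rw [smul_eq_C_mul, map_ofNat]
    ring
  have e3 : 2 * (4 * lam * r) = (8 : ℝ) • (lam * r) := by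
    rw [smul_eq_C_mul, map_ofNat]
    ring
  have e4 : 2 * (4 * lam * (u - (t / 3) • r)) = (8 : ℝ) • (lam * u) - (8 * (t / 3)) • (lam * r) := by
    rw [mul_smul, ← smul_sub, ← mul_smul_comm, ← mul_sub, smul_eq_C_mul _ (8 : ℝ), map_ofNat]
    ring
  rw [e2, e3, e4]
  simp only [mul_zero, zero_smul, mul_smul_comm, sub_mul, smul_mul_assoc, mul_comm u lam,
    mul_comm r lam]
  push_cast
  module

end

omit [Fintype σ] [DecidableEq σ] in
theorem q_hom {F : Fin 3 → MvPolynomial σ ℝ} {u : σ → ℕ} {d : ℕ}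
    (h : ∀ i, IsWeightedHomogeneous u (F i) d) (X : M3) :
    IsWeightedHomogeneous u (q F X) (d + d) :=
  IsWeightedHomogeneous.sum _ _ _ fun i _ => IsWeightedHomogeneous.sum _ _ _ fun j _ =>
    (weightedHomogeneousSubmodule ℝ u (d + d)).smul_mem _ ((h i).mul (h j))

omit [Fintype σ] [DecidableEq σ] in
theorem H4_hom {F : Fin 3 → MvPolynomial σ ℝ} {u : σ → ℕ} {d : ℕ}
    (h : ∀ i, IsWeightedHomogeneous u (F i) d) (X Y : M3) :
    IsWeightedHomogeneous u (H4 F X Y) (d + d + (d + d)) :=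
  (((q_hom h _).mul (q_hom h _)).sub
    ((weightedHomogeneousSubmodule ℝ u _).smul_mem _ ((q_hom h _).mul (q_hom h _)))).sub
    ((weightedHomogeneousSubmodule ℝ u _).smul_mem _ ((q_hom h _).mul (q_hom h _)))

variable {B : Finset (Finset σ × ℕ)} {F : Fin 3 → MvPolynomial σ ℝ}

theorem Good.sum_le (h : Good B F) (m : σ →₀ ℕ) :
    ∑ b ∈ B, Finsupp.weight (w b.1) m ≤ m.sum fun _ e => e := by
  simp only [weight_w]
  rw [← sum_biUnion fun b hb b' hb' e => h.disj b hb b' hb' e,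
    Finsupp.sum_fintype _ _ fun _ => rfl]
  exact sum_le_sum_of_subset (subset_univ _)

omit [Fintype σ] in
theorem mono_hom (S : Finset σ) (m : σ →₀ ℕ) (a : ℝ) :
    Hom S (monomial m a) (Finsupp.weight (w S) m) := isWeightedHomogeneous_monomial _ _ _ rfl

theorem Good.H4_mono (h : Good B F) (hd : 1 ≤ ∑ b ∈ B, b.2) {X Y : M3} (hX : X.IsSymm)
    (hY : Y.IsSymm) (tX : X.trace = 0) (tY : Y.trace = 0) {m : σ →₀ ℕ} (a : ℝ)
    (hm : (m.sum fun _ e => e) ≤ 2 * ∑ b ∈ B, b.2 + 1) : E (monomial m a * H4 F X Y) = 0 := by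
  have : ∃ b ∈ B, Finsupp.weight (w b.1) m < b.2 + b.2 + (b.2 + b.2) := by
    by_contra hc
    push Not at hc
    have h1 := sum_le_sum hc
    have h2 := h.sum_le m
    simp only [sum_add_distrib] at h1
    omega
  obtain ⟨b, hb, hlt⟩ := this
  obtain ⟨lam, hl⟩ := h.conf b hb
  exact orth _ _ _ _ hlt (H4_hom (h.hom b hb) X Y) (L_H4 (h.harm b hb) hl hX hY tX tY)
    (mono_hom _ _ _)

theorem Good.q_mono (h : Good B F) {Z : M3} (tZ : Z.trace = 0) {m : σ →₀ ℕ} (a : ℝ)
    (hm : (m.sum fun _ e => e) ≤ 2 * ∑ b ∈ B, b.2 + 1)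
    (hne : ∃ b ∈ B, Finsupp.weight (w b.1) m ≠ b.2 + b.2) : E (monomial m a * q F Z) = 0 := by
  by_cases hc : ∃ b ∈ B, Finsupp.weight (w b.1) m < b.2 + b.2
  · obtain ⟨b, hb, hlt⟩ := hc
    obtain ⟨lam, hl⟩ := h.conf b hb
    refine orth _ _ _ _ hlt (q_hom (h.hom b hb) Z) ?_ (mono_hom _ _ _)
    rw [L_q (h.harm b hb) hl, tZ, mul_zero, zero_smul]
  · push Not at hc
    obtain ⟨b, hb, hne⟩ := hne
    have h1 : ∑ c ∈ B.erase b, (c.2 + c.2) ≤ ∑ c ∈ B.erase b, Finsupp.weight (w c.1) m :=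
      sum_le_sum fun c hc' => hc c (mem_of_mem_erase hc')
    have h2 := h.sum_le m
    have h3 := hc b hb
    rw [← add_sum_erase _ _ hb] at h2 hm
    rw [sum_add_distrib] at h1
    refine E_odd ((mono_hom b.1 m a).mul (q_hom (h.hom b hb) Z)) ⟨b.2 + b.2, by omega⟩

theorem Good.rad_mono (h : Good B F) {Z : M3} (tZ : Z.trace = 0) {m : σ →₀ ℕ} (a : ℝ)
    (hm : (m.sum fun _ e => e) ≤ 2 * ∑ b ∈ B, b.2 + 1) :
    E (monomial m a * (q F 1 * q F Z)) =
      (∏ b ∈ B, cc (b.1.card + (b.2 + b.2 + (b.2 + b.2))) b.2) * E (monomial m a * q F Z) := by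
  have e := radial_prod (fun b : Finset σ × ℕ => b.1) (fun b => b.2)
    (fun b => Finsupp.weight (w b.1) m + (b.2 + b.2)) (monomial m a * q F Z) B h.disj
    fun b hb => (mono_hom b.1 m a).mul (q_hom (h.hom b hb) Z)
  rw [mul_left_comm, q_one, h.norm, e]
  by_cases hne : ∃ b ∈ B, Finsupp.weight (w b.1) m ≠ b.2 + b.2
  · rw [h.q_mono tZ a hm hne, mul_zero, mul_zero]
  · push Not at hne
    congr 1
    exact prod_congr rfl fun b hb => by rw [hne b hb]

theorem Good.key (h : Good B F) (hd : 1 ≤ ∑ b ∈ B, b.2) :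
    ∃ κ : ℝ, κ ≠ 0 ∧ ∃ Z : MvPolynomial σ ℝ,
      (∀ X : M3, X.IsSymm → X.trace = 0 → q F X = 0 → X = 0) ∧
      ∀ φ : MvPolynomial σ ℝ, φ.totalDegree ≤ 2 * ∑ b ∈ B, b.2 + 1 → ∀ X Y : M3, X.IsSymm →
        Y.IsSymm → X.trace = 0 → Y.trace = 0 →
        E (φ * (q F X * q F Y)) = κ * E (φ * q F (jp X Y)) + (X * Y).trace * E (φ * Z) := by
  set κ0 := ∏ b ∈ B, cc (b.1.card + (b.2 + b.2 + (b.2 + b.2))) b.2 with hκ
  have hpos : 0 < κ0 := prod_pos fun b hb => cc_pos (by
    have := card_pos.2 (h.ne b hb)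
    omega) _
  have main : ∀ φ : MvPolynomial σ ℝ, φ.totalDegree ≤ 2 * ∑ b ∈ B, b.2 + 1 → ∀ X Y : M3,
      X.IsSymm → Y.IsSymm → X.trace = 0 → Y.trace = 0 →
      E (φ * (q F X * q F Y)) = 4 / 7 * κ0 * E (φ * q F (jp X Y))
        + (X * Y).trace * E (φ * ((2 / 15 : ℝ) • (q F 1 * q F 1))) := by
    intro φ hφ X Y hX hY tX tY
    rw [φ.as_sum]
    simp only [sum_mul, map_sum, mul_sum, ← sum_add_distrib]
    refine sum_congr rfl fun m hm => ?_
    have hm' := (le_totalDegree hm).trans hφ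
    have e1 := h.H4_mono hd hX hY tX tY (coeff m φ) hm'
    have e2 := h.rad_mono (jp_trace X Y) (coeff m φ) hm'
    simp only [H4, mul_sub, mul_smul_comm, map_sub, map_smul, smul_eq_mul] at e1 ⊢
    rw [e2] at e1
    linear_combination e1
  refine ⟨4 / 7 * κ0, by positivity, _, fun X hX tX h0 => ?_, main⟩
  have e := main 1 (by simp) X X hX hX tX tX
  have e0 : E (1 * q F (jp X X)) = 0 := by
    refine h.q_mono (m := 0) (jp_trace X X) 1 (by simp) ?_
    obtain ⟨b, hb, hb0⟩ := exists_ne_zero_of_sum_ne_zero (s := B) (f := fun b => b.2) (by omega)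
    exact ⟨b, hb, by rw [map_zero]; omega⟩
  have e1 := radial_prod (fun b : Finset σ × ℕ => b.1) (fun b => b.2 + b.2) (fun _ => 0) 1 B
    h.disj fun b _ => isWeightedHomogeneous_one ℝ _
  have e2 : q F 1 * q F 1 = ∏ b ∈ B, rsq b.1 ^ (b.2 + b.2) := by
    rw [q_one, h.norm, ← prod_mul_distrib]
    exact prod_congr rfl fun b _ => (pow_add _ _ _).symm
  have hp : 0 < ∏ b ∈ B, cc (b.1.card + 0) (b.2 + b.2) := prod_pos fun b hb =>
    cc_pos (by simpa using h.ne b hb) _
  rw [e0, h0, e2, mul_zero, mul_zero, mul_zero, map_zero, zero_add, one_mul, map_smul] at e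
  rw [mul_one, E_one, mul_one] at e1
  rw [e1, smul_eq_mul] at e
  have ht : (X * X).trace = 0 := (mul_eq_zero.1 e.symm).resolve_right (by positivity)
  rw [← Matrix.trace_mul_conjTranspose_self_eq_zero_iff, conjTranspose_eq_transpose_of_trivial,
    hX.eq, ht]

end

end Pool.Agent.Work.MP_6bf1e5_an.Chaos
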