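import Pool.Agent.Work.MP_6bf1e5_an.Chaos.Key

/-!
The maps `ω₁ ⋯ ωₘ v (ω₁ ⋯ ωₘ)^*` for quaternions `ωⱼ` are harmonic morphisms in each block.
-/

open MvPolynomial Finset Matrix

namespace Pool.Agent.Work.MP_6bf1e5_an.Chaos

noncomputable section

variable {σ : Type} [Fintype σ] [DecidableEq σ]

/-- The matrix of `v ↦ ω v ω^*`. -/
def Rq {A : Type} [CommRing A] (x : Fin 4 → A) : Fin 3 → Fin 3 → A :=
  ![![x 0 * x 0 + x 1 * x 1 - x 2 * x 2 - x 3 * x 3,
      x 1 * x 2 + x 1 * x 2 - x 0 * x 3 - x 0 * x 3,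
      x 1 * x 3 + x 1 * x 3 + x 0 * x 2 + x 0 * x 2],
    ![x 1 * x 2 + x 1 * x 2 + x 0 * x 3 + x 0 * x 3,
      x 0 * x 0 - x 1 * x 1 + x 2 * x 2 - x 3 * x 3,
      x 2 * x 3 + x 2 * x 3 - x 0 * x 1 - x 0 * x 1],
    ![x 1 * x 3 + x 1 * x 3 - x 0 * x 2 - x 0 * x 2,
      x 2 * x 3 + x 2 * x 3 + x 0 * x 1 + x 0 * x 1,
      x 0 * x 0 - x 1 * x 1 - x 2 * x 2 + x 3 * x 3]]

theorem Rq_orth {A : Type} [CommRing A] (x : Fin 4 → A) (i j : Fin 3) :
    ∑ k, Rq x i k * Rq x j k = if i = j then (∑ s, x s * x s) ^ 2 else 0 := by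
  fin_cases i <;> fin_cases j <;> simp [Rq, Fin.sum_univ_three, Fin.sum_univ_four] <;> ring

theorem Rq_norm {A : Type} [CommRing A] (x : Fin 4 → A) (F : Fin 3 → A) :
    ∑ i, (∑ k, Rq x i k * F k) * (∑ k, Rq x i k * F k) = (∑ s, x s * x s) ^ 2 * ∑ i, F i * F i := by
  simp [Rq, Fin.sum_univ_three, Fin.sum_univ_four]
  ring

omit [Fintype σ] [DecidableEq σ] in
theorem Rq_hom {u : σ → ℕ} {a : ℕ} {x : Fin 4 → MvPolynomial σ ℝ}
    (h : ∀ s, IsWeightedHomogeneous u (x s) a) (i k : Fin 3) :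
    IsWeightedHomogeneous u (Rq x i k) (a + a) := by
  have g : ∀ s t, IsWeightedHomogeneous u (x s * x t) (a + a) := fun s t => (h s).mul (h t)
  revert i k
  simp only [Fin.forall_fin_succ, Rq, Matrix.cons_val_zero, Matrix.cons_val_succ,
    IsEmpty.forall_iff, and_true]
  exact ⟨⟨(((g 0 0).add (g 1 1)).sub (g 2 2)).sub (g 3 3),
      (((g 1 2).add (g 1 2)).sub (g 0 3)).sub (g 0 3),
      (((g 1 3).add (g 1 3)).add (g 0 2)).add (g 0 2)⟩,
    ⟨(((g 1 2).add (g 1 2)).add (g 0 3)).add (g 0 3),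
      (((g 0 0).sub (g 1 1)).add (g 2 2)).sub (g 3 3),
      (((g 2 3).add (g 2 3)).sub (g 0 1)).sub (g 0 1)⟩,
    (((g 1 3).add (g 1 3)).sub (g 0 2)).sub (g 0 2),
    (((g 2 3).add (g 2 3)).add (g 0 1)).add (g 0 1),
    (((g 0 0).sub (g 1 1)).sub (g 2 2)).add (g 3 3)⟩

omit [Fintype σ] [DecidableEq σ] in
theorem rot_hom {u : σ → ℕ} {a d : ℕ} {x : Fin 4 → MvPolynomial σ ℝ}
    {F : Fin 3 → MvPolynomial σ ℝ} (h : ∀ s, IsWeightedHomogeneous u (x s) a)
    (hF : ∀ k, IsWeightedHomogeneous u (F k) d) (i : Fin 3) :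
    IsWeightedHomogeneous u (∑ k, Rq x i k * F k) (a + a + d) :=
  IsWeightedHomogeneous.sum _ _ _ fun k _ => (Rq_hom h i k).mul (hF k)

omit [Fintype σ] in
theorem pd_e {ι : Type} [DecidableEq ι] (e : ι ↪ σ) (s t : ι) :
    pderiv (e s) (X (e t) : MvPolynomial σ ℝ) = if s = t then 1 else 0 := by
  split_ifs with h
  · subst h
    simp
  · exact pderiv_X_of_ne fun k => h (e.injective k).symm

omit [Fintype σ] in
theorem X_hom0 {S : Finset σ} {v : σ} (h : v ∉ S) : Hom S (X v) 0 := by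
  have k := isWeightedHomogeneous_X ℝ (w S) v
  rwa [show w S v = 0 by simp [w, h]] at k

omit [Fintype σ] in
theorem X_hom1 {S : Finset σ} {v : σ} (h : v ∈ S) : Hom S (X v) 1 := by
  have k := isWeightedHomogeneous_X ℝ (w S) v
  rwa [show w S v = 1 by simp [w, h]] at k

theorem Good.step {B : Finset (Finset σ × ℕ)} {F : Fin 3 → MvPolynomial σ ℝ} (h : Good B F)
    (e : Fin 4 ↪ σ) (hd : ∀ b ∈ B, Disjoint b.1 (univ.map e)) :
    (univ.map e, 2) ∉ B ∧
      Good (insert (univ.map e, 2) B) fun i => ∑ k, Rq (fun s => X (e s)) i k * F k := by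
  have hmem : ∀ s, e s ∈ univ.map e := fun s => mem_map_of_mem e (mem_univ s)
  have hn : (univ.map e, 2) ∉ B := fun hb => disjoint_left.1 (hd _ hb) (hmem 0) (hmem 0)
  have hx : ∀ b ∈ B, ∀ s, Hom b.1 (X (e s)) 0 := fun b hb s =>
    X_hom0 (disjoint_right.1 (hd b hb) (hmem s))
  have hF : ∀ s k, pderiv (e s) (F k) = 0 := fun s k => pd_zero (h.out _ hd k) (hmem s)
  have hR : ∀ b ∈ B, ∀ v ∈ b.1, ∀ i, pderiv v (∑ k, Rq (fun s => X (e s)) i k * F k) =
      ∑ k, Rq (fun s => X (e s)) i k * pderiv v (F k) := fun b hb v hv i => by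
    simp only [map_sum, pderiv_mul, pd_zero (Rq_hom (hx b hb) i _) hv, zero_mul, zero_add]
  refine ⟨hn, ?_, ?_, ?_, ?_, ?_, ?_, ?_, ?_⟩
  · intro b hb b' hb' hne
    rcases mem_insert.1 hb with rfl | hb <;> rcases mem_insert.1 hb' with rfl | hb'
    · exact (hne rfl).elim
    · exact (hd _ hb').symm
    · exact hd _ hb
    · exact h.disj _ hb _ hb' hne
  · intro b hb
    rcases mem_insert.1 hb with rfl | hb
    · exact ⟨_, hmem 0⟩
    · exact h.ne b hb
  · intro b hb i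
    rcases mem_insert.1 hb with rfl | hb
    · exact rot_hom (fun s => X_hom1 (hmem s)) (h.out _ hd) i
    · simpa using rot_hom (hx b hb) (h.hom b hb) i
  · intro b hb i
    rcases mem_insert.1 hb with rfl | hb
    · simp only [L_apply, sum_map, map_sum, pderiv_mul, hF, mul_zero, add_zero, map_add]
      fin_cases i <;>
        simp [Rq, Fin.sum_univ_three, Fin.sum_univ_four, -pderiv_X] <;> ring
    · have e1 : L b.1 (∑ k, Rq (fun s => X (e s)) i k * F k) =
          ∑ k, Rq (fun s => X (e s)) i k * L b.1 (F k) := by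
        simp only [L_apply, mul_sum]
        rw [sum_comm]
        refine sum_congr rfl fun v hv => ?_
        rw [hR b hb v hv]
        simp only [map_sum, pderiv_mul, pd_zero (Rq_hom (hx b hb) i _) hv, zero_mul, zero_add]
      simp only [e1, h.harm b hb, mul_zero, sum_const_zero]
  · intro b hb
    rcases mem_insert.1 hb with rfl | hb
    · refine ⟨4 * (∑ s, X (e s) * X (e s)) * ∑ k, F k * F k, fun i j => ?_⟩
      simp only [G, sum_map, map_sum, pderiv_mul, hF, mul_zero, add_zero]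
      fin_cases i <;> fin_cases j <;>
        simp [Rq, Fin.sum_univ_three, Fin.sum_univ_four, pd_e, -pderiv_X] <;> ring
    · obtain ⟨lam, hl⟩ := h.conf b hb
      refine ⟨lam * (∑ s, X (e s) * X (e s)) ^ 2, fun i j => ?_⟩
      have e1 : G b.1 (∑ k, Rq (fun s => X (e s)) i k * F k) (∑ k, Rq (fun s => X (e s)) j k * F k)
          = ∑ k, ∑ l, Rq (fun s => X (e s)) i k * Rq (fun s => X (e s)) j l * G b.1 (F k) (F l) := by
        rw [G, sum_congr rfl fun v hv => by rw [hR b hb v hv, hR b hb v hv, sum_mul_sum]]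
        simp only [G, mul_sum]
        rw [sum_comm]
        refine sum_congr rfl fun k _ => ?_
        rw [sum_comm]
        exact sum_congr rfl fun l _ => sum_congr rfl fun v _ => by ring
      simp only [e1, hl, mul_ite, mul_zero, sum_ite_eq, mem_univ, if_true, ← sum_mul, Rq_orth]
      split_ifs <;> ring
  · rw [prod_insert hn, Rq_norm, h.norm, rsq, sum_map]
  · intro T hT i
    exact rot_hom (fun s => X_hom0 (disjoint_left.1 (hT _ (mem_insert_self _ _)) (hmem s)))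
      (h.out T fun b hb => hT b (mem_insert_of_mem hb)) i
  · intro i
    rw [sum_insert hn]
    exact rot_hom (u := 1) (a := 1) (fun s => isHomogeneous_X ℝ _) h.deg i

omit [Fintype σ] in
theorem good_zero : Good (∅ : Finset (Finset σ × ℕ)) ![1, 0, 0] := by
  refine ⟨by simp, by simp, by simp, by simp, by simp, by simp [Fin.sum_univ_three],
    fun T _ i => ?_, fun i => ?_⟩
  · fin_cases i
    exacts [isWeightedHomogeneous_one ℝ _, isWeightedHomogeneous_zero ℝ _ _,
      isWeightedHomogeneous_zero ℝ _ _]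
  · fin_cases i
    exacts [isHomogeneous_one _ _, isHomogeneous_zero _ _ _, isHomogeneous_zero _ _ _]

omit [Fintype σ] in
theorem good_one (e : Fin 3 ↪ σ) : Good {(univ.map e, 1)} fun i => X (e i) := by
  have hmem : ∀ s, e s ∈ univ.map e := fun s => mem_map_of_mem e (mem_univ s)
  refine ⟨by simp, ?_, ?_, ?_, ?_, ?_, fun T hT i => ?_, fun i => ?_⟩
  · simp only [mem_singleton, forall_eq]
    exact ⟨_, hmem 0⟩
  · simp only [mem_singleton, forall_eq]
    exact fun i => X_hom1 (hmem i)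
  · simp only [mem_singleton, forall_eq]
    intro i
    simp only [L_apply, sum_map, pd_e]
    exact sum_eq_zero fun s _ => by split_ifs <;> simp
  · simp only [mem_singleton, forall_eq]
    refine ⟨1, fun i j => ?_⟩
    simp only [G, sum_map, pd_e]
    simp [eq_comm]
  · rw [prod_singleton, pow_one, rsq, sum_map]
  · exact X_hom0 (disjoint_left.1 (hT _ (mem_singleton_self _)) (hmem i))
  · rw [sum_singleton]
    exact isHomogeneous_X ℝ _

theorem exists_good {n : ℕ} {d0 : ℕ} (h0 : d0 ≤ 1) (m : ℕ) (hm : 3 * d0 + 4 * m ≤ n) :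
    ∃ (B : Finset (Finset (Fin n) × ℕ)) (F : Fin 3 → MvPolynomial (Fin n) ℝ), Good B F ∧
      ∑ b ∈ B, b.2 = d0 + 2 * m ∧ ∀ b ∈ B, ∀ v ∈ b.1, v.val < 3 * d0 + 4 * m := by
  induction m with
  | zero =>
    rcases Nat.le_one_iff_eq_zero_or_eq_one.1 h0 with rfl | rfl
    · exact ⟨∅, _, good_zero, by simp, by simp⟩
    · refine ⟨_, _, good_one (Fin.castLEEmb (by omega)), by simp, ?_⟩
      simp only [mem_singleton, forall_eq, mem_map]
      rintro v ⟨s, -, rfl⟩
      simp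
  | succ m ih =>
    obtain ⟨B, F, hG, hs, hb⟩ := ih (by omega)
    let e : Fin 4 ↪ Fin n := ⟨fun s => ⟨3 * d0 + 4 * m + s, by have := s.2; omega⟩,
      fun s t hst => by
        have := congrArg Fin.val hst
        simp only [add_right_inj] at this
        exact Fin.ext this⟩
    have he : ∀ s, (e s).val = 3 * d0 + 4 * m + s := fun s => rfl
    obtain ⟨hn, hG'⟩ := hG.step e fun b hbB => disjoint_left.2 fun v hv hv' => by
      obtain ⟨s, -, rfl⟩ := mem_map.1 hv'
      have := hb b hbB _ hv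
      rw [he] at this
      omega
    refine ⟨_, _, hG', by rw [sum_insert hn, hs]; ring, fun b hbB v hv => ?_⟩
    rcases mem_insert.1 hbB with rfl | hbB
    · obtain ⟨s, -, rfl⟩ := mem_map.1 hv
      have := s.2
      rw [he]
      omega
    · have := hb b hbB v hv
      omega

/-- The algebraic input of the blow-up theorem. -/
theorem exists_forms {p n : ℕ} (hp : 2 ≤ p) (hn : 2 * (p / 2) < n) :
    ∃ (Q : M3 →ₗ[ℝ] MvPolynomial (Fin n) ℝ) (κ : ℝ) (Z : MvPolynomial (Fin n) ℝ), κ ≠ 0 ∧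
      (∀ X, (Q X).totalDegree ≤ p) ∧ (∀ X : M3, X.IsSymm → X.trace = 0 → Q X = 0 → X = 0) ∧
      ∀ φ : MvPolynomial (Fin n) ℝ, φ.totalDegree ≤ p → ∀ X Y : M3, X.IsSymm →
        Y.IsSymm → X.trace = 0 → Y.trace = 0 →
        E (φ * (Q X * Q Y)) = κ * E (φ * Q (jp X Y)) + (X * Y).trace * E (φ * Z) := by
  obtain ⟨B, F, hG, hs, -⟩ := exists_good (n := n) (d0 := p / 2 % 2) (by omega) (p / 4) (by omega)
  obtain ⟨κ, hκ, Z, h1, h2⟩ := hG.key (by omega)
  refine ⟨q F, κ, Z, hκ, fun X => ?_, h1, fun φ hφ => h2 φ (by omega)⟩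
  exact (IsHomogeneous.totalDegree_le (q_hom (u := 1) hG.deg X)).trans (by omega)

end

end Pool.Agent.Work.MP_6bf1e5_an.Chaos
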