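import Mathlib

/-!
The Gaussian mean of a polynomial.
-/

open MeasureTheory ProbabilityTheory

namespace Pool.Agent.Work.MP_6bf1e5_an.Chaos

/-- The mean of `f (ξ)`, where the coordinates of `ξ` are independent standard normal variables. -/
noncomputable def gmean {σ : Type} [Fintype σ] (f : MvPolynomial σ ℝ) : ℝ :=
  ∫ ξ : σ → ℝ, MvPolynomial.eval ξ f ∂(Measure.pi fun _ => gaussianReal 0 1)

end Pool.Agent.Work.MP_6bf1e5_an.Chaos
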