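import Pool.Agent.Work.MP_6bf1e5_an.Chaos.Free

/-!
The blow-up theorem for random fields.
-/

open scoped ContDiff ENNReal
open MeasureTheory ProbabilityTheory MvPolynomial Finset Pool.Agent.Work.MP_6bf1e5_an.Ens
  Pool.Agent.Work.MP_6bf1e5_an.Ang

namespace Pool.Agent.Work.MP_6bf1e5_an.Chaos

noncomputable section

/-- A nonzero polynomial is almost surely nonzero. -/
theorem ae_eval_ne {n : ℕ} (a : MvPolynomial (Fin n) ℝ) (ha : a ≠ 0) :
    ∀ᵐ ξ ∂gm n, eval ξ a ≠ 0 := by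
  induction n with
  | zero =>
    refine Filter.Eventually.of_forall fun ξ h => ha ?_
    rw [eq_C_of_isEmpty a] at h ⊢
    rw [eval_C] at h
    rw [h, C_0]
  | succ r ih =>
    have hN : NullSingletonClass (gaussianReal 0 1) := nullSingletonClass_gaussianReal one_ne_zero
    have hP : IsProbabilityMeasure (gm r) := by
      unfold gm
      infer_instance
    have ho : IsOpen {ξ : Fin (r + 1) → ℝ | eval ξ a ≠ 0} :=
      isOpen_ne_fun a.continuous_eval continuous_const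
    have mp : MeasurePreserving (fun z : (Fin r → ℝ) × ℝ => (Fin.cons z.2 z.1 : Fin (r + 1) → ℝ))
        ((gm r).prod (gaussianReal 0 1)) (gm (r + 1)) := by
      have h1 := (measurePreserving_piFinSuccAbove (fun _ : Fin (r + 1) => gaussianReal 0 1) 0).symm
      have h2 := h1.comp (Measure.measurePreserving_swap (μ := gm r) (ν := gaussianReal 0 1))
      convert h2 using 1
      · funext z
        simp [MeasurableEquiv.piFinSuccAbove, Fin.consEquiv]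
      · rfl
    have hl : (finSuccEquiv ℝ r a).leadingCoeff ≠ 0 :=
      Polynomial.leadingCoeff_ne_zero.2 ((map_ne_zero_iff _ (finSuccEquiv ℝ r).injective).2 ha)
    rw [← mp.map_eq, ae_map_iff mp.measurable.aemeasurable ho.measurableSet]
    refine (Measure.ae_prod_iff_ae_ae (mp.measurable ho.measurableSet)).2 ?_
    filter_upwards [ih _ hl] with θ hθ
    have hne : (finSuccEquiv ℝ r a).map (eval θ) ≠ 0 := fun e => hθ (by
      rw [Polynomial.leadingCoeff, ← Polynomial.coeff_map, e, Polynomial.coeff_zero])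
    have hc := ((Polynomial.rootSet_finite _ ℝ).subset fun z hz =>
      (Polynomial.mem_rootSet_of_ne hne).2 hz).countable
    filter_upwards [hc.ae_notMem (gaussianReal 0 1)] with t ht
    rw [eval_eq_eval_mv_eval']
    exact ht

variable {n p : ℕ} {ι : Type} [Fintype ι] [DecidableEq ι] {ψ : ι → MvPolynomial (Fin n) ℝ}

theorem ONB.loc (h : ONB p ψ) {ν : ℝ} {I : Set ℝ} {v0 : ι → R3 → R3} {v : ι → R3 → ℝ → R3}
    {r : ι → R3 → ℝ → ℝ} (hs : CSol ν (c3 ψ) v0 I v r) (x : R3) {t : ℝ} (ht : t ∈ I) :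
    derivWithin (fun s => ∫ ξ, ‖lift ψ v ξ x s‖ ^ 2 / 2 ∂gm n) I t
      + ∑ j, pd j (fun y => ∫ ξ, lift ψ v ξ y t j *
          (‖lift ψ v ξ y t‖ ^ 2 / 2 + ∑ a, ev ψ ξ a * r a y t) ∂gm n) x
      = ν * ∑ j, (pd j (pd j fun y => ∫ ξ, ‖lift ψ v ξ y t‖ ^ 2 / 2 ∂gm n) x
        - ∫ ξ, ∑ i, pd j (fun y => lift ψ v ξ y t i) x ^ 2 ∂gm n) := by
  have h13 : ∀ a b d, c3 ψ a b d = c3 ψ d b a := fun a b d => by
    unfold c3
    congr 1
    ring
  have h23 : ∀ a b d, c3 ψ a b d = c3 ψ a d b := fun a b d => by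
    unfold c3
    congr 1
    ring
  have e1 : ∀ y s, ∫ ξ, ‖lift ψ v ξ y s‖ ^ 2 / 2 ∂gm n = (∑ a, ∑ i, v a y s i ^ 2) / 2 :=
    fun y s => by
      rw [integral_div]
      exact congrArg (· / 2) (h.int_sq fun a => v a y s).1
  have e2 : ∀ j y, ∫ ξ, lift ψ v ξ y t j *
      (‖lift ψ v ξ y t‖ ^ 2 / 2 + ∑ a, ev ψ ξ a * r a y t) ∂gm n =
      (∑ a, ∑ b, ∑ d, c3 ψ a b d * (v a y t j * ∑ i, v b y t i * v d y t i)) / 2
        + ∑ a, v a y t j * r a y t := fun j y => by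
    have e : ∀ ξ, lift ψ v ξ y t j * (‖lift ψ v ξ y t‖ ^ 2 / 2 + ∑ a, ev ψ ξ a * r a y t) =
        eval ξ ((1 / 2 : ℝ) • (pc ψ (fun a => v a y t j) *
          ∑ i, pc ψ (fun a => v a y t i) * pc ψ fun a => v a y t i)
          + pc ψ (fun a => v a y t j) * pc ψ fun a => r a y t) := fun ξ => by
      rw [norm_sq_eq_sum]
      simp only [lift_apply, map_add, smul_eval, map_mul, map_sum, eval_pc, sq]
      ring
    simp only [e]
    rw [int_E, map_add, map_smul, h.E2, E_pc, smul_eq_mul, one_div_mul_eq_div]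
    congr 2
    refine sum_congr rfl fun a _ => ?_
    simp only [mul_sum, map_sum, E3a]
    rw [sum_comm]
    refine sum_congr rfl fun b _ => ?_
    rw [sum_comm]
    exact sum_congr rfl fun d _ => sum_congr rfl fun i _ => by ring
  have e3 : ∀ j, ∫ ξ, ∑ i, pd j (fun y => lift ψ v ξ y t i) x ^ 2 ∂gm n =
      ∑ a, ∑ i, pd j (fun y => v a y t i) x ^ 2 := fun j => by
    have e : ∀ ξ, ∑ i, pd j (fun y => lift ψ v ξ y t i) x ^ 2 =
        eval ξ (∑ i, pc ψ (fun a => pd j (fun y => v a y t i) x) *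
          pc ψ fun a => pd j (fun y => v a y t i) x) := fun ξ => by
      simp only [lift_apply, pd_comb _ fun a => (hs.ju a _).slice ht, map_mul, map_sum, eval_pc, sq]
    simp only [e]
    rw [int_E, map_sum, sum_comm]
    simp only [h.E2, sq]
  simp only [e1, e2, e3]
  exact local_energy h13 h23 hs x ht

theorem ONB.hel (h : ONB p ψ) {ν : ℝ} {I : Set ℝ} {v0 : ι → R3 → R3} {v : ι → R3 → ℝ → R3}
    {r : ι → R3 → ℝ → ℝ} (hs : CSol ν (c3 ψ) v0 I v r) (x : R3) {t : ℝ} (ht : t ∈ I) (i : Fin 3) :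
    ∫ ξ, curl (fun y => lift ψ v ξ y t) x i *
      res ν I (lift ψ v ξ) (fun y s => ∑ a, ev ψ ξ a * r a y s) x t i ∂gm n = 0 := by
  refine (h.fwd hs).momentum _ ?_ x t ht i
  have e : (fun ξ => curl (fun y => lift ψ v ξ y t) x i) = fun ξ => ∑ a, ev ψ ξ a *
      (pd (i + 1) (fun y => v a y t (i + 2)) x - pd (i + 2) (fun y => v a y t (i + 1)) x) := by
    funext ξ
    simp only [curl, lift_apply, pd_comb _ fun a => (hs.ju a _).slice ht, mul_sub, sum_sub_distrib]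
  rw [e]
  exact h.poly _

omit [DecidableEq ι] in
theorem norm_comb_le (m : ι → ℝ) (k : ι → R3) {c : ℝ} (hk : ∀ a, ‖k a‖ ≤ c) :
    ‖∑ a, m a • k a‖ ≤ (∑ a, |m a|) * c := by
  rw [sum_mul]
  refine (norm_sum_le _ _).trans (sum_le_sum fun a _ => ?_)
  rw [norm_smul, Real.norm_eq_abs]
  exact mul_le_mul_of_nonneg_left (hk a) (abs_nonneg _)

theorem top {p n : ℕ} (hp : 2 ≤ p) (hn : 2 * (p / 2) < n) {ν : ℝ} (hν : 0 < ν) :
    ∃ u0 : (Fin n → ℝ) → SchwartzMap R3 R3,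
      (∀ ξ x, ∑ i, pd i (fun y => u0 ξ y i) x = 0) ∧ men (fun ξ => u0 ξ) < ⊤ ∧
      (∃ u q, PCSol p ν (fun ξ => u0 ξ) (Set.Ico 0 1) u q ∧
        (∀ t ∈ Set.Ico (0 : ℝ) 1, men (fun ξ x => u ξ x t) ≤ men fun ξ => u0 ξ) ∧
        (∀ x, ∀ t ∈ Set.Ico (0 : ℝ) 1,
          derivWithin (fun s => ∫ ξ, ‖u ξ x s‖ ^ 2 / 2 ∂gm n) (Set.Ico 0 1) t
            + ∑ j, pd j (fun y => ∫ ξ, u ξ y t j * (‖u ξ y t‖ ^ 2 / 2 + q ξ y t) ∂gm n) x
            = ν * ∑ j, (pd j (pd j fun y => ∫ ξ, ‖u ξ y t‖ ^ 2 / 2 ∂gm n) x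
              - ∫ ξ, ∑ i, pd j (fun y => u ξ y t i) x ^ 2 ∂gm n) ∧
          ∀ i, ∫ ξ, curl (fun y => u ξ y t) x i *
            res ν (Set.Ico 0 1) (u ξ) (q ξ) x t i ∂gm n = 0) ∧
        ∃ W : (Fin n → ℝ) → R3 → R3, (∀ᵐ ξ ∂gm n, W ξ ≠ 0) ∧
          (∀ ξ, ∃ C : ℝ, ∀ y, ‖W ξ y‖ ≤ C / (1 + ‖y‖)) ∧
          (∃ r, PCSol p ν W (Set.Ico 0 1)
            (fun ξ x t => (√(1 - t))⁻¹ • W ξ ((√(1 - t))⁻¹ • x)) r) ∧
          ∀ ξ, ∀ ε > 0, ∃ t0 < 1, ∀ t ∈ Set.Ico t0 1, ∀ y,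
            ‖√(1 - t) • u ξ (√(1 - t) • y) t - W ξ y‖ ≤ ε) ∧
      ¬∃ u q, PCSol p ν (fun ξ => u0 ξ) (Set.Ici 0) u q ∧
        ∃ C < (⊤ : ℝ≥0∞), ∀ t ≥ 0, men (fun ξ x => u ξ x t) ≤ C := by
  obtain ⟨N, ψ, h1, h2, h3⟩ := exists_basis n p
  have h : ONB p ψ := ⟨h1, h3, fun a b => by simpa only [gmean, map_mul] using h2 a b⟩
  obtain ⟨v0, hdiv, ⟨v, r, hs, hE, W, hW0, ⟨C, hC⟩, ⟨r', hr'⟩, hlim⟩, hno⟩ :=
    main hp hn h.deg h.span h.orth hν
  have e0 : (fun ξ => ((∑ a, ev ψ ξ a • v0 a : SchwartzMap R3 R3) : R3 → R3)) =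
      fun ξ x => ∑ a, ev ψ ξ a • v0 a x := by
    funext ξ x
    simp
  have z01 : (0 : ℝ) ∈ Set.Ico (0 : ℝ) 1 := ⟨le_rfl, zero_lt_one⟩
  have hf := h.fwd hs
  have hm0 := h.men_eq (v := fun a => v0 a) fun a => (v0 a).continuous
  refine ⟨fun ξ => ∑ a, ev ψ ξ a • v0 a, fun ξ x => ?_, ?_,
    ⟨lift ψ v, _, e0 ▸ hf, fun t ht => ?_, fun x t ht => ⟨h.loc hs x ht, h.hel hs x ht⟩,
      fun ξ y => ∑ a, ev ψ ξ a • W a y, ?_, fun ξ => ⟨(∑ a, |ev ψ ξ a|) * C, fun y => ?_⟩,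
      ⟨fun ξ x t => ∑ a, ev ψ ξ a * r' a x t, ?_⟩, fun ξ ε hε => ?_⟩, ?_⟩
  · have e := hf.divFree ξ x 0 z01
    simp only [hf.initial] at e
    rw [← e]
    simp
  · rw [e0, hm0, energy]
    refine ENNReal.sum_lt_top.2 fun a _ => ?_
    have := ((v0 a).memLp 2 volume).integrable_norm_pow (by norm_num)
    have e := this.hasFiniteIntegral
    simpa [HasFiniteIntegral] using e
  · rw [e0, hm0]
    exact (h.men_eq (v := fun a x => v a x t) fun a =>
      (contDiffOn_univ.1 ((hs.smooth_u a).comp (f := fun x : R3 => (x, t)) (by fun_prop)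
        fun _ _ => ⟨Set.mem_univ _, ht⟩)).continuous).trans_le (hE t ht)
  · obtain ⟨a, ha⟩ := Function.ne_iff.1 hW0
    obtain ⟨y, hy⟩ := Function.ne_iff.1 ha
    obtain ⟨i, hi⟩ : ∃ i, W a y i ≠ 0 := by
      by_contra hc
      push Not at hc
      exact hy (by ext i; exact hc i)
    have hne : pc ψ (fun a => W a y i) ≠ 0 := fun e => hi (by
      rw [← h.E1 a fun a => W a y i, e, mul_zero, map_zero])
    filter_upwards [ae_eval_ne _ hne] with ξ hξ e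
    refine hξ ?_
    have := congrArg (fun w : R3 => w i) (congrFun e y)
    rw [eval_pc]
    simpa using this
  · rw [mul_div_assoc]
    exact norm_comb_le _ _ fun a => hC a y
  · have e := h.fwd hr'
    convert e using 1
    funext ξ x t
    simp only [lift, smul_sum, smul_comm (√(1 - t))⁻¹]
  · obtain ⟨t0, ht0, k⟩ := hlim (ε / (∑ a, |ev ψ ξ a| + 1)) (by positivity)
    refine ⟨t0, ht0, fun t ht y => ?_⟩
    have e : √(1 - t) • lift ψ v ξ (√(1 - t) • y) t - ∑ a, ev ψ ξ a • W a y =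
        ∑ a, ev ψ ξ a • (√(1 - t) • v a (√(1 - t) • y) t - W a y) := by
      simp only [lift, smul_sum, smul_sub, sum_sub_distrib, smul_comm √(1 - t)]
    rw [e]
    refine (norm_comb_le _ _ fun a => k t ht a y).trans ?_
    have hS : 0 ≤ ∑ a, |ev ψ ξ a| := by positivity
    rw [mul_div_assoc', div_le_iff₀ (by positivity)]
    nlinarith
  · rintro ⟨u, q, hu, C', hC', hb⟩
    rw [e0] at hu
    obtain ⟨v', r'', hs', ev'⟩ := h.bwd (Set.mem_Ici.2 le_rfl) hu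
    refine hno ⟨v', r'', hs', C', hC', fun t ht => ?_⟩
    rw [← h.men_eq (v := fun a x => v' a x t) fun a =>
      (contDiffOn_univ.1 ((hs'.smooth_u a).comp (f := fun x : R3 => (x, t)) (by fun_prop)
        fun _ _ => ⟨Set.mem_univ _, ht⟩)).continuous]
    have e : (fun ξ x => ∑ a, ev ψ ξ a • v' a x t) = fun ξ x => u ξ x t :=
      funext₂ fun ξ x => (ev' t ht ξ x).symm
    rw [e]
    exact hb t ht

end

end Pool.Agent.Work.MP_6bf1e5_an.Chaos
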